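import Mathlib

set_option autoImplicit false

namespace Pool.Agent.H750R3

open MvPolynomial

/-- the function `binomial (x + n - a, n)` as a rational function of `x` -/
noncomputable def Bn (n a : ℕ) (x : ℚ) : ℚ := (descPochhammer ℚ n).eval (x + n - a) / n.factorial

theorem Bn_succ (n a : ℕ) (z : ℚ) : (n + 1 : ℚ) * Bn (n+1) a z = (z + n + 1 - a) * Bn n a z := by
  unfold Bn
  rw [descPochhammer_succ_left, Polynomial.eval_mul, Polynomial.eval_X, Polynomial.eval_comp]
  simp only [Polynomial.eval_sub, Polynomial.eval_X, Polynomial.eval_one]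
  have h : z + ((n + 1 : ℕ) : ℚ) - a - 1 = z + n - a := by push_cast; ring
  rw [h, Nat.factorial_succ]
  have h1 : ((n.factorial : ℕ) : ℚ) ≠ 0 := by exact_mod_cast n.factorial_ne_zero
  have h2 : ((n : ℚ) + 1) ≠ 0 := by positivity
  push_cast
  field_simp
  ring

theorem Bn_succ' (n a : ℕ) (z : ℚ) : (n + 1 : ℚ) * Bn (n+1) (a+1) z = (z - a) * Bn n a z := by
  unfold Bn
  rw [descPochhammer_succ_eval]
  have h : z + ((n + 1 : ℕ) : ℚ) - ((a + 1 : ℕ) : ℚ) = z + n - a := by push_cast; ring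
  rw [h, Nat.factorial_succ]
  have h1 : ((n.factorial : ℕ) : ℚ) ≠ 0 := by exact_mod_cast n.factorial_ne_zero
  have h2 : ((n : ℚ) + 1) ≠ 0 := by positivity
  push_cast
  field_simp
  ring

theorem Bn_sub (n a : ℕ) (z : ℚ) : Bn (n+1) a z - Bn (n+1) (a+1) z = Bn n a z := by
  have h2 : ((n : ℚ) + 1) ≠ 0 := by positivity
  have h3 := Bn_succ n a z
  have h4 := Bn_succ' n a z
  apply mul_left_cancel₀ h2
  rw [mul_sub, h3, h4]; ring

theorem Bn_mul (n a : ℕ) (z : ℚ) :
    (a : ℚ) * Bn (n+1) a z + (n + 1 - a) * Bn (n+1) (a+1) z = z * Bn n a z := by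
  have h2 : ((n : ℚ) + 1) ≠ 0 := by positivity
  have h3 := Bn_succ n a z
  have h4 := Bn_succ' n a z
  apply mul_left_cancel₀ h2
  linear_combination (a : ℚ) * h3 + (n + 1 - a) * h4

theorem Bn_nat (n a x : ℕ) (h : a ≤ n) : Bn n a x = ((x + (n - a)).choose n : ℕ) := by
  unfold Bn
  have h1 : (x : ℚ) + n - a = ((x + (n - a) : ℕ) : ℚ) := by
    push_cast [Nat.cast_sub h]; ring
  rw [h1, descPochhammer_eval_eq_descFactorial, Nat.descFactorial_eq_factorial_mul_choose]
  have h1 : ((n.factorial : ℕ) : ℚ) ≠ 0 := by exact_mod_cast n.factorial_ne_zero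
  push_cast
  field_simp

/-- the linear functional `s^a t^b ↦ Bn n1 a x * Bn n2 b y` -/
noncomputable def Phi (n1 n2 : ℕ) (x y : ℚ) : MvPolynomial (Fin 2) ℚ →ₗ[ℚ] ℚ :=
  (basisMonomials (Fin 2) ℚ).constr ℚ (fun m => Bn n1 (m 0) x * Bn n2 (m 1) y)

theorem Phi_monomial (n1 n2 : ℕ) (x y : ℚ) (m : Fin 2 →₀ ℕ) (c : ℚ) :
    Phi n1 n2 x y (monomial m c) = c * (Bn n1 (m 0) x * Bn n2 (m 1) y) := by
  have h : (monomial m c : MvPolynomial (Fin 2) ℚ) = c • (basisMonomials (Fin 2) ℚ) m := by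
    rw [coe_basisMonomials, smul_monomial, smul_eq_mul, mul_one]
  rw [h, map_smul]
  unfold Phi
  rw [Module.Basis.constr_basis, smul_eq_mul]

theorem Phi_one_sub_0 (n1 n2 : ℕ) (x y : ℚ) (P : MvPolynomial (Fin 2) ℚ) :
    Phi (n1+1) n2 x y ((1 - X 0) * P) = Phi n1 n2 x y P := by
  induction P using MvPolynomial.induction_on' with
  | monomial m c =>
    rw [sub_mul, one_mul, map_sub, X, monomial_mul, Phi_monomial, Phi_monomial, Phi_monomial]
    simp only [Finsupp.coe_add, Pi.add_apply, Finsupp.single_apply, one_mul]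
    simp only [if_true, if_false, show ((0 : Fin 2) = 1) = False by simp, zero_add]
    rw [← Bn_sub n1 (m 0) x, add_comm 1 (m 0)]
    ring
  | add P Q hP hQ => rw [mul_add, map_add, map_add, hP, hQ]

theorem Phi_one_sub_1 (n1 n2 : ℕ) (x y : ℚ) (P : MvPolynomial (Fin 2) ℚ) :
    Phi n1 (n2+1) x y ((1 - X 1) * P) = Phi n1 n2 x y P := by
  induction P using MvPolynomial.induction_on' with
  | monomial m c =>
    rw [sub_mul, one_mul, map_sub, X, monomial_mul, Phi_monomial, Phi_monomial, Phi_monomial]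
    simp only [Finsupp.coe_add, Pi.add_apply, Finsupp.single_apply, one_mul]
    simp only [if_true, if_false, show ((1 : Fin 2) = 0) = False by simp, zero_add]
    rw [← Bn_sub n2 (m 1) y, add_comm 1 (m 1)]
    ring
  | add P Q hP hQ => rw [mul_add, map_add, map_add, hP, hQ]

/-- `s (1-s) d/ds + (n+1) s` -/
noncomputable def D0 (n : ℕ) (P : MvPolynomial (Fin 2) ℚ) : MvPolynomial (Fin 2) ℚ :=
  (1 - X 0) * (X 0 * pderiv 0 P) + ((n : MvPolynomial (Fin 2) ℚ) + 1) * X 0 * P

/-- `t (1-t) d/dt + (n+1) t` -/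
noncomputable def D1 (n : ℕ) (P : MvPolynomial (Fin 2) ℚ) : MvPolynomial (Fin 2) ℚ :=
  (1 - X 1) * (X 1 * pderiv 1 P) + ((n : MvPolynomial (Fin 2) ℚ) + 1) * X 1 * P

theorem D0_add (n : ℕ) (P Q : MvPolynomial (Fin 2) ℚ) : D0 n (P + Q) = D0 n P + D0 n Q := by
  unfold D0; rw [map_add]; ring

theorem D1_add (n : ℕ) (P Q : MvPolynomial (Fin 2) ℚ) : D1 n (P + Q) = D1 n P + D1 n Q := by
  unfold D1; rw [map_add]; ring

theorem D0_C_mul (n : ℕ) (c : ℚ) (P : MvPolynomial (Fin 2) ℚ) : D0 n (C c * P) = C c * D0 n P := by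
  unfold D0; rw [Derivation.leibniz]; simp; ring

theorem D1_C_mul (n : ℕ) (c : ℚ) (P : MvPolynomial (Fin 2) ℚ) : D1 n (C c * P) = C c * D1 n P := by
  unfold D1; rw [Derivation.leibniz]; simp; ring

theorem Phi_D0 (n1 n2 : ℕ) (x y : ℚ) (P : MvPolynomial (Fin 2) ℚ) :
    Phi (n1+1) n2 x y (D0 n1 P) = x * Phi n1 n2 x y P := by
  induction P using MvPolynomial.induction_on' with
  | monomial m c =>
    have h1 : D0 n1 (monomial m c) = monomial m (c * m 0) +
        monomial (m + Finsupp.single 0 1) (c * (n1 + 1 - m 0)) := by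
      unfold D0
      rw [X_mul_pderiv_monomial, sub_mul, one_mul]
      have e1 : (m 0 • ((monomial m c) : MvPolynomial (Fin 2) ℚ)) = monomial m (c * m 0) := by
        rw [smul_monomial, nsmul_eq_mul, mul_comm]
      have e2 : ((n1 : MvPolynomial (Fin 2) ℚ) + 1) = C ((n1 : ℚ) + 1) := by simp
      rw [e1, e2, X, monomial_mul, mul_assoc, monomial_mul, C_mul_monomial, add_comm m, sub_add,
        ← map_sub]
      rw [sub_eq_add_neg, ← map_neg]
      congr 2
      ring
    rw [h1, map_add, Phi_monomial, Phi_monomial, Phi_monomial]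
    simp only [Finsupp.coe_add, Pi.add_apply, Finsupp.single_apply]
    simp only [if_true, if_false, show ((0 : Fin 2) = 1) = False by simp, add_zero]
    linear_combination (c * Bn n2 (m 1) y) * Bn_mul n1 (m 0) x
  | add P Q hP hQ => rw [D0_add, map_add, map_add, hP, hQ]; ring

theorem Phi_D1 (n1 n2 : ℕ) (x y : ℚ) (P : MvPolynomial (Fin 2) ℚ) :
    Phi n1 (n2+1) x y (D1 n2 P) = y * Phi n1 n2 x y P := by
  induction P using MvPolynomial.induction_on' with
  | monomial m c =>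
    have h1 : D1 n2 (monomial m c) = monomial m (c * m 1) +
        monomial (m + Finsupp.single 1 1) (c * (n2 + 1 - m 1)) := by
      unfold D1
      rw [X_mul_pderiv_monomial, sub_mul, one_mul]
      have e1 : (m 1 • ((monomial m c) : MvPolynomial (Fin 2) ℚ)) = monomial m (c * m 1) := by
        rw [smul_monomial, nsmul_eq_mul, mul_comm]
      have e2 : ((n2 : MvPolynomial (Fin 2) ℚ) + 1) = C ((n2 : ℚ) + 1) := by simp
      rw [e1, e2, X, monomial_mul, mul_assoc, monomial_mul, C_mul_monomial, add_comm m, sub_add,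
        ← map_sub]
      rw [sub_eq_add_neg, ← map_neg]
      congr 2
      ring
    rw [h1, map_add, Phi_monomial, Phi_monomial, Phi_monomial]
    simp only [Finsupp.coe_add, Pi.add_apply, Finsupp.single_apply]
    simp only [if_true, if_false, show ((1 : Fin 2) = 0) = False by simp, add_zero]
    linear_combination (c * Bn n1 (m 0) x) * Bn_mul n2 (m 1) y
  | add P Q hP hQ => rw [D1_add, map_add, map_add, hP, hQ]; ring

/-- basis element `(st)^i (s+t)^j (1+st)^m` -/
noncomputable def bas (i j m : ℕ) : MvPolynomial (Fin 2) ℚ :=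
  (X 0 * X 1) ^ i * (X 0 + X 1) ^ j * (1 + X 0 * X 1) ^ m

theorem theta_p0 (i : ℕ) : (X 0 : MvPolynomial (Fin 2) ℚ) * pderiv 0 ((X 0 * X 1) ^ i)
    = (i : MvPolynomial (Fin 2) ℚ) * (X 0 * X 1) ^ i := by
  induction i with
  | zero => simp
  | succ i ih =>
    rw [pow_succ, Derivation.leibniz, smul_eq_mul, smul_eq_mul, mul_add]
    have : (X 0 : MvPolynomial (Fin 2) ℚ) * (X 0 * X 1 * pderiv 0 ((X 0 * X 1) ^ i)) =
      (X 0 * X 1) * (X 0 * pderiv 0 ((X 0 * X 1) ^ i)) := by ring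
    rw [this, ih, Derivation.leibniz, pderiv_X_self, pderiv_X_of_ne (by simp)]
    push_cast
    simp only [smul_eq_mul]
    ring

theorem theta_p1 (i : ℕ) : (X 1 : MvPolynomial (Fin 2) ℚ) * pderiv 1 ((X 0 * X 1) ^ i)
    = (i : MvPolynomial (Fin 2) ℚ) * (X 0 * X 1) ^ i := by
  induction i with
  | zero => simp
  | succ i ih =>
    rw [pow_succ, Derivation.leibniz, smul_eq_mul, smul_eq_mul, mul_add]
    have : (X 1 : MvPolynomial (Fin 2) ℚ) * (X 0 * X 1 * pderiv 1 ((X 0 * X 1) ^ i)) =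
      (X 0 * X 1) * (X 1 * pderiv 1 ((X 0 * X 1) ^ i)) := by ring
    rw [this, ih, Derivation.leibniz, pderiv_X_self, pderiv_X_of_ne (by simp)]
    push_cast
    simp only [smul_eq_mul]
    ring

end Pool.Agent.H750R3
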