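import Pool.Agent.H750R3.Alg

set_option autoImplicit false

namespace Pool.Agent.H750R3

open MvPolynomial

theorem pd_s0 (j : ℕ) : pderiv 0 ((X 0 + X 1 : MvPolynomial (Fin 2) ℚ) ^ j)
    = (j : MvPolynomial (Fin 2) ℚ) * (X 0 + X 1) ^ (j - 1) := by
  rw [Derivation.leibniz_pow, map_add, pderiv_X_self, pderiv_X_of_ne (by simp)]
  simp

theorem pd_s1 (j : ℕ) : pderiv 1 ((X 0 + X 1 : MvPolynomial (Fin 2) ℚ) ^ j)
    = (j : MvPolynomial (Fin 2) ℚ) * (X 0 + X 1) ^ (j - 1) := by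
  rw [Derivation.leibniz_pow, map_add, pderiv_X_self, pderiv_X_of_ne (by simp)]
  simp

theorem pd_w0 (j : ℕ) : pderiv 0 ((1 + X 0 * X 1 : MvPolynomial (Fin 2) ℚ) ^ j)
    = (j : MvPolynomial (Fin 2) ℚ) * (1 + X 0 * X 1) ^ (j - 1) * X 1 := by
  rw [Derivation.leibniz_pow, map_add, Derivation.leibniz, pderiv_X_self,
    pderiv_X_of_ne (by simp)]
  simp [mul_assoc]

theorem pd_w1 (j : ℕ) : pderiv 1 ((1 + X 0 * X 1 : MvPolynomial (Fin 2) ℚ) ^ j)
    = (j : MvPolynomial (Fin 2) ℚ) * (1 + X 0 * X 1) ^ (j - 1) * X 0 := by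
  rw [Derivation.leibniz_pow, map_add, Derivation.leibniz, pderiv_X_self,
    pderiv_X_of_ne (by simp)]
  simp [mul_assoc]

/-- main identity -/
theorem D01_bas (n i j m : ℕ) (h : n + 1 = 2 * i + j + m) :
    D0 n (D1 n (bas i j m)) = C ((i : ℚ) * (i + j)) * bas i j (m+1)
      + C ((i : ℚ) * (n + 1 - i - j)) * bas i (j+1) m
      + C ((m : ℚ) * (2 * n + 3 - m)) * bas (i+1) j (m-1)
      + C ((m : ℚ) * (m - 1)) * bas (i+1) (j+1) (m-2)
      + C ((j : ℚ) * (j - 1)) * bas (i+1) (j-2) (m+1)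
      + C ((j : ℚ) * (2 * n + 3 - j)) * bas (i+1) (j-1) m := by
  have hn : (n : MvPolynomial (Fin 2) ℚ) = 2 * i + j + m - 1 := by
    have : ((n + 1 : ℕ) : MvPolynomial (Fin 2) ℚ) = ((2 * i + j + m : ℕ) : MvPolynomial (Fin 2) ℚ) := by
      rw [h]
    push_cast at this
    linear_combination this
  have e1 : D1 n (bas i j m) = (1 - X 1) * ((X 0 * X 1) ^ i * (
        (i : MvPolynomial (Fin 2) ℚ) * (X 0 + X 1) ^ j * (1 + X 0 * X 1) ^ m
        + (j : MvPolynomial (Fin 2) ℚ) * X 1 * (X 0 + X 1) ^ (j-1) * (1 + X 0 * X 1) ^ m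
        + (m : MvPolynomial (Fin 2) ℚ) * (X 0 * X 1) * (X 0 + X 1) ^ j * (1 + X 0 * X 1) ^ (m-1)))
        + ((n : MvPolynomial (Fin 2) ℚ) + 1) * X 1 * ((X 0 * X 1) ^ i * (X 0 + X 1) ^ j * (1 + X 0 * X 1) ^ m) := by
    unfold D1 bas
    rw [Derivation.leibniz, Derivation.leibniz, pd_s1, pd_w1]
    simp only [smul_eq_mul]
    have := theta_p1 i
    linear_combination ((1 - X 1) * (1 + X 0 * X 1) ^ m * (X 0 + X 1) ^ j) * this
  rw [e1]
  unfold D0
  simp only [map_add, map_sub, Derivation.leibniz, Derivation.map_one_eq_zero, pd_s0, pd_w0,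
    pderiv_X_self, pderiv_X_of_ne (show (1 : Fin 2) ≠ 0 by simp), smul_eq_mul, Derivation.map_natCast]
  have key := theta_p0 i
  unfold bas
  simp only [map_mul, map_add, map_sub, map_natCast, map_one, map_ofNat]
  rw [hn]
  generalize (pderiv 0) ((X 0 * X 1 : MvPolynomial (Fin 2) ℚ) ^ i) = p at key ⊢
  clear h e1 hn
  have key2 := congrArg (fun z => ((1 - X 0) * ((1 - X 1) *
        ((i : MvPolynomial (Fin 2) ℚ) * (X 0 + X 1) ^ j * (1 + X 0 * X 1) ^ m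
        + (j : MvPolynomial (Fin 2) ℚ) * X 1 * (X 0 + X 1) ^ (j-1) * (1 + X 0 * X 1) ^ m
        + (m : MvPolynomial (Fin 2) ℚ) * (X 0 * X 1) * (X 0 + X 1) ^ j * (1 + X 0 * X 1) ^ (m-1))
        + (2 * i + j + m : MvPolynomial (Fin 2) ℚ) * X 1 * ((X 0 + X 1) ^ j * (1 + X 0 * X 1) ^ m))) * z) key

  clear key
  rcases j with _ | _ | j <;> rcases m with _ | _ | m <;>
    simp only [Nat.cast_zero, pow_zero, Nat.cast_add, Nat.cast_one, Nat.add_sub_cancel, zero_add, pow_one,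
      show ∀ a : ℕ, a + 1 + 1 - 2 = a from fun a => by omega, Nat.sub_self, Nat.zero_sub,
      show (1 : ℕ) - 2 = 0 by rfl] at key2 ⊢ <;>
    linear_combination key2

end Pool.Agent.H750R3
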