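import Pool.Agent.H750R3.RegB

set_option autoImplicit false

namespace Pool.Agent.H750R3

open Complex Real
open scoped Nat

theorem pow_ratio (m : ℕ) (hm : 6 ≤ m) : (8*(m:ℝ)+19)^m ≤ 3 * (8*(m:ℝ)+11)^m := by
  have hm' : (6:ℝ) ≤ m := by exact_mod_cast hm
  have h0 : (0:ℝ) < 8*(m:ℝ)+11 := by linarith
  have h1 : (8*(m:ℝ)+19) / (8*(m:ℝ)+11) ≤ Real.exp (8/(8*(m:ℝ)+11)) := by
    have := Real.add_one_le_exp (8/(8*(m:ℝ)+11))
    have h2 : (8*(m:ℝ)+19) / (8*(m:ℝ)+11) = 8/(8*(m:ℝ)+11) + 1 := by field_simp; ring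
    rw [h2]; exact this
  have h2 := pow_le_pow_left₀ (by positivity) h1 m
  rw [← Real.exp_nat_mul, div_pow, div_le_iff₀ (by positivity)] at h2
  have h3 : Real.exp ((m:ℝ) * (8/(8*(m:ℝ)+11))) ≤ 3 := by
    have h4 : (m:ℝ) * (8/(8*(m:ℝ)+11)) ≤ 1 := by
      rw [mul_div_assoc', div_le_one h0]; linarith
    have h5 := Real.exp_le_exp.2 h4
    have h6 := Real.exp_one_lt_d9
    linarith
  refine h2.trans ?_
  exact mul_le_mul_of_nonneg_right h3 (by positivity)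

theorem factB (m : ℕ) (hm : 6 ≤ m) : 4 * (m ! : ℝ)^2 * (8*(m:ℝ)+11)^m ≤ ((2*m)! : ℝ)^2 := by
  induction m, hm using Nat.le_induction with
  | base => norm_num [Nat.factorial]
  | succ m hm ih =>
    have hm' : (6:ℝ) ≤ m := by exact_mod_cast hm
    have h1 := pow_ratio m hm
    have e1 : (2*(m+1))! = (2*m+2) * ((2*m+1) * (2*m)!) := by
      have : 2*(m+1) = 2*m+1+1 := by ring
      rw [this, Nat.factorial_succ, Nat.factorial_succ]
    rw [e1, Nat.factorial_succ]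
    push_cast
    have e2 : 8*((m:ℝ)+1)+11 = 8*(m:ℝ)+19 := by ring
    rw [e2, pow_succ (8*(m:ℝ)+19) m]
    set A := (m ! : ℝ) with hA
    set B := ((2*m)! : ℝ) with hB
    set X := (8*(m:ℝ)+11)^m with hX
    set Y := (8*(m:ℝ)+19)^m with hY
    have hA0 : 0 < A := by rw [hA]; positivity
    have hB0 : 0 < B := by rw [hB]; positivity
    have h2 : 4 * (((m:ℝ)+1) * A)^2 * (Y * (8*(m:ℝ)+19)) ≤
        3 * ((m:ℝ)+1)^2 * (8*(m:ℝ)+19) * (4 * A^2 * X) := by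
      have : 4 * (((m:ℝ)+1) * A)^2 * (Y * (8*(m:ℝ)+19)) =
        (4 * (((m:ℝ)+1) * A)^2 * (8*(m:ℝ)+19)) * Y := by ring
      rw [this]
      have h3 := mul_le_mul_of_nonneg_left h1 (by positivity : 0 ≤ (4 * (((m:ℝ)+1) * A)^2 * (8*(m:ℝ)+19)))
      refine h3.trans (le_of_eq ?_)
      ring
    refine h2.trans ?_
    have h3 := mul_le_mul_of_nonneg_left ih (by positivity : 0 ≤ 3 * ((m:ℝ)+1)^2 * (8*(m:ℝ)+19))
    refine h3.trans ?_
    have h4 : 3 * (8*(m:ℝ)+19) ≤ 4 * (2*(m:ℝ)+1)^2 := by nlinarith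
    have h5 : ((2*(m:ℝ)+2) * ((2*(m:ℝ)+1) * B))^2 = (4 * (2*(m:ℝ)+1)^2) * (((m:ℝ)+1)^2 * B^2) := by ring
    rw [h5]
    have h6 := mul_le_mul_of_nonneg_right h4 (by positivity : 0 ≤ ((m:ℝ)+1)^2 * B^2)
    refine le_trans (le_of_eq ?_) h6
    ring

theorem pi_sq_bounds : 9.869 < π^2 ∧ π^2 < 9.8697 := by
  have h1 := Real.pi_gt_d4
  have h2 := Real.pi_lt_d4
  constructor <;> nlinarith

theorem condC_large (m : ℕ) (hm : 6 ≤ m) (u : ℝ) (hu : 0 < u) (hu2 : u ≤ 8*(m:ℝ)+11) :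
    CondC m u := by
  unfold CondC
  have hm' : (6:ℝ) ≤ m := by exact_mod_cast hm
  obtain ⟨hp1, hp2⟩ := pi_sq_bounds
  have hpm : 0 < π^2 * m := by positivity
  have h1 : u/(2*π^2*m) < 1/2 := by
    rw [div_lt_div_iff₀ (by positivity) (by norm_num)]
    nlinarith
  have h2 : u/(4*π^2*m) < 1/4 := by
    have : u/(4*π^2*m) = u/(2*π^2*m) / 2 := by field_simp; ring
    rw [this]; linarith
  have h3 : 2 * (m ! : ℝ) * (√u)^m ≤ ((2*m)! : ℝ) := by
    have h4 := factB m hm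
    have h5 : (2 * (m ! : ℝ) * (√u)^m)^2 ≤ ((2*m)! : ℝ)^2 := by
      have h6 : (2 * (m ! : ℝ) * (√u)^m)^2 = 4 * (m ! : ℝ)^2 * u^m := by
        rw [mul_pow, mul_pow, ← pow_mul, mul_comm m 2, pow_mul, Real.sq_sqrt hu.le]; norm_num
      rw [h6]
      refine le_trans ?_ h4
      have h7 := pow_le_pow_left₀ hu.le hu2 m
      exact mul_le_mul_of_nonneg_left h7 (by positivity)
    exact le_of_sq_le_sq h5 (by positivity)
  have h8 : 0 < (m ! : ℝ) * (√u)^m := by positivity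
  have h9 : 0 < ((2*m)! : ℝ) := by positivity
  calc (m ! : ℝ) * (√u)^m * (1 + u/(2*π^2*m)) < (m ! : ℝ) * (√u)^m * (1 + 1/2) := by
        apply mul_lt_mul_of_pos_left _ h8; linarith
    _ ≤ ((2*m)! : ℝ) * (1 - 1/4) := by linarith
    _ < _ := by apply mul_lt_mul_of_pos_left _ h9; linarith

theorem condC_four (u : ℝ) (hu : 0 < u) (hu2 : u ≤ 30.12) : CondC 4 u := by
  unfold CondC
  obtain ⟨hp1, hp2⟩ := pi_sq_bounds
  have e1 : (√u)^4 = u^2 := by
    have : (√u)^4 = ((√u)^2)^2 := by ring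
    rw [this, Real.sq_sqrt hu.le]
  have e2 : ((4 ! : ℕ) : ℝ) = 24 := by norm_num [Nat.factorial]
  have e3 : (((2*4)! : ℕ) : ℝ) = 40320 := by norm_num [Nat.factorial]
  rw [e1, e2, e3]
  have h1 : u/(2*π^2*(4:ℕ)) ≤ 0.382 := by
    rw [div_le_iff₀ (by positivity)]
    push_cast
    nlinarith
  have h2 : u/(4*π^2*(4:ℕ)) ≤ 0.191 := by
    rw [div_le_iff₀ (by positivity)]
    push_cast
    nlinarith
  have h3 : u^2 ≤ 907.3 := by nlinarith
  have h4 : 24 * u^2 * (1 + u/(2*π^2*(4:ℕ))) ≤ 24 * 907.3 * (1 + 0.382) := by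
    apply mul_le_mul _ _ (by positivity) (by norm_num)
    · linarith
    · linarith
  linarith

theorem condC_five (u : ℝ) (hu : 0 < u) (hu2 : u ≤ 40.12) : CondC 5 u := by
  unfold CondC
  obtain ⟨hp1, hp2⟩ := pi_sq_bounds
  have e1 : (√u)^5 = u^2 * √u := by
    have : (√u)^5 = ((√u)^2)^2 * √u := by ring
    rw [this, Real.sq_sqrt hu.le]
  have e2 : ((5 ! : ℕ) : ℝ) = 120 := by norm_num [Nat.factorial]
  have e3 : (((2*5)! : ℕ) : ℝ) = 3628800 := by norm_num [Nat.factorial]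
  rw [e1, e2, e3]
  have h1 : u/(2*π^2*(5:ℕ)) ≤ 0.407 := by
    rw [div_le_iff₀ (by positivity)]
    push_cast
    nlinarith
  have h2 : u/(4*π^2*(5:ℕ)) ≤ 0.204 := by
    rw [div_le_iff₀ (by positivity)]
    push_cast
    nlinarith
  have h3 : u^2 ≤ 1610 := by nlinarith
  have h5 : √u ≤ 6.34 := by
    rw [Real.sqrt_le_left (by norm_num)]
    linarith
  have h6 : u^2 * √u ≤ 1610 * 6.34 := by
    apply mul_le_mul h3 h5 (by positivity) (by norm_num)
  have h4 : 120 * (u^2 * √u) * (1 + u/(2*π^2*(5:ℕ))) ≤ 120 * (1610 * 6.34) * (1 + 0.407) := by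
    apply mul_le_mul _ _ (by positivity) (by norm_num)
    · linarith
    · linarith
  linarith

theorem condC_all (m j : ℕ) (hm : 4 ≤ m) (hj : 2 ≤ j) (hB : m < 2*j^2) (x : ℝ)
    (hx : 0 < x) (hx2 : x ≤ (2*(m:ℝ)+1)/j) : CondC m (x^2+π^2) := by
  obtain ⟨hp1, hp2⟩ := pi_sq_bounds
  have hj' : (2:ℝ) ≤ j := by exact_mod_cast hj
  have hu : 0 < x^2 + π^2 := by positivity
  have hx3 := pow_le_pow_left₀ hx.le hx2 2
  have hm' : (4:ℝ) ≤ m := by exact_mod_cast hm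
  have h2 : (2*(m:ℝ)+1)/j ≤ (2*(m:ℝ)+1)/2 := by
    apply div_le_div_of_nonneg_left (by positivity) (by norm_num) hj'
  have hx4 := pow_le_pow_left₀ hx.le (hx2.trans h2) 2
  rcases Nat.lt_or_ge m 6 with h | h
  · have : m = 4 ∨ m = 5 := by omega
    rcases this with rfl | rfl
    · apply condC_four _ hu
      push_cast at hx4
      norm_num at hx4
      linarith
    · apply condC_five _ hu
      push_cast at hx4
      norm_num at hx4
      linarith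
  · apply condC_large m h _ hu
    have h3 : ((m:ℝ) + 1) ≤ 2*(j:ℝ)^2 := by exact_mod_cast hB
    have hm6 : (6:ℝ) ≤ m := by exact_mod_cast h
    have h4 : ((2*(m:ℝ)+1)/j)^2 ≤ 8*(m:ℝ) + 1 := by
      rw [div_pow, div_le_iff₀ (by positivity)]
      nlinarith
    linarith

end Pool.Agent.H750R3
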