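import Pool.Agent.H750R3.Alg2

set_option autoImplicit false

namespace Pool.Agent.H750R3

open MvPolynomial

/-- support condition for the gamma coefficients -/
def Supp (n k i j : ℕ) : Prop :=
  1 ≤ i ∧ 2 * i + j ≤ n + 1 ∧ (n : ℤ) + 1 - k ≤ i * (n + 1 - i - j) ∧ k ≤ i * (i + j)

/-- gamma-nonnegative polynomials with the support condition -/
def Cone (n k : ℕ) (P : MvPolynomial (Fin 2) ℚ) : Prop :=
  ∃ c : ℕ → ℕ → ℚ, (∀ i j, 0 ≤ c i j) ∧ (∀ i j, c i j ≠ 0 → Supp n k i j) ∧
    P = ∑ i ∈ Finset.range (n + 2), ∑ j ∈ Finset.range (n + 2 - 2 * i),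
      C (c i j) * bas i j (n + 1 - j - 2 * i)

theorem Cone.zero (n k : ℕ) : Cone n k 0 :=
  ⟨fun _ _ => 0, fun _ _ => le_rfl, fun _ _ h => absurd rfl h, by simp⟩

theorem Cone.add {n k : ℕ} {P Q : MvPolynomial (Fin 2) ℚ} (hP : Cone n k P) (hQ : Cone n k Q) :
    Cone n k (P + Q) := by
  obtain ⟨c, hc, hs, rfl⟩ := hP
  obtain ⟨d, hd, ht, rfl⟩ := hQ
  refine ⟨fun i j => c i j + d i j, fun i j => add_nonneg (hc i j) (hd i j), ?_, ?_⟩
  · intro i j h
    by_cases h1 : c i j = 0
    · by_cases h2 : d i j = 0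
      · exact absurd (by beta_reduce; rw [h1, h2, add_zero]) h
      · exact ht i j h2
    · exact hs i j h1
  · simp only [map_add, add_mul, Finset.sum_add_distrib]

theorem Cone.smul {n k : ℕ} {P : MvPolynomial (Fin 2) ℚ} (hP : Cone n k P) {a : ℚ} (ha : 0 ≤ a) :
    Cone n k (C a * P) := by
  obtain ⟨c, hc, hs, rfl⟩ := hP
  refine ⟨fun i j => a * c i j, fun i j => mul_nonneg ha (hc i j), ?_, ?_⟩
  · intro i j h
    exact hs i j (right_ne_zero_of_mul h)
  · simp only [map_mul, Finset.mul_sum, mul_assoc]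

theorem Cone.sum {n k : ℕ} {ι : Type} (s : Finset ι) (f : ι → MvPolynomial (Fin 2) ℚ)
    (h : ∀ i ∈ s, Cone n k (f i)) : Cone n k (∑ i ∈ s, f i) := by
  classical
  induction s using Finset.induction_on with
  | empty => simpa using Cone.zero n k
  | insert a s ha ih =>
    rw [Finset.sum_insert ha]
    exact (h a (Finset.mem_insert_self a s)).add (ih fun i hi => h i (Finset.mem_insert_of_mem hi))

theorem Cone.bas {n k i j m : ℕ} (a : ℚ) (ha : 0 ≤ a)
    (h : a ≠ 0 → 2 * i + j + m = n + 1 ∧ Supp n k i j) :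
    Cone n k (C a * bas i j m) := by
  classical
  by_cases h0 : a = 0
  · subst h0; simpa using Cone.zero n k
  obtain ⟨h1, h2⟩ := h h0
  refine ⟨fun i' j' => if i' = i ∧ j' = j then a else 0, ?_, ?_, ?_⟩
  · intro i' j'
    dsimp only
    split_ifs
    · exact ha
    · exact le_rfl
  · intro i' j' h3
    have : i' = i ∧ j' = j := by
      by_contra h4
      exact h3 (if_neg h4)
    rw [this.1, this.2]; exact h2
  · beta_reduce
    rw [Finset.sum_eq_single i, Finset.sum_eq_single j]
    · rw [if_pos ⟨rfl, rfl⟩]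
      congr 2
      omega
    · intro j' _ hj
      rw [if_neg (fun h => hj h.2)]
      simp
    · intro h3
      exfalso
      apply h3
      rw [Finset.mem_range]
      have := h2.2.1
      omega
    · intro i' _ hi
      apply Finset.sum_eq_zero
      intro j' _
      rw [if_neg (fun h => hi h.1)]
      simp
    · intro h3
      exfalso
      apply h3
      rw [Finset.mem_range]
      have := h2.2.1
      omega

/-- `(1 - s)(1 - t) = (1 + st) - (s + t)` on a basis element -/
theorem one_sub_bas (i j m : ℕ) : (1 - X 0) * ((1 - X 1) * bas i j m) = bas i j (m+1) - bas i (j+1) m := by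
  unfold bas
  ring

set_option maxHeartbeats 4000000 in
theorem step_bas {n k i j m : ℕ} (e : ℚ) (k' : ℕ) (h : n + 1 = 2 * i + j + m) (hS : Supp n k i j)
    (hk : 1 ≤ k) (hkn : k ≤ n)
    (he : (e = n + 1 - k ∧ k' = k) ∨ (e = -k ∧ k' = k + 1)) :
    Cone (n+1) k' (D0 n (D1 n (bas i j m)) + C e * ((1 - X 0) * ((1 - X 1) * bas i j m))) := by
  have h1 : D0 n (D1 n (bas i j m)) + C e * ((1 - X 0) * ((1 - X 1) * bas i j m))
      = C ((i : ℚ) * (i + j) + e) * bas i j (m+1)
      + C ((i : ℚ) * (n + 1 - i - j) - e) * bas i (j+1) m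
      + C ((m : ℚ) * (2 * n + 3 - m)) * bas (i+1) j (m-1)
      + C ((m : ℚ) * (m - 1)) * bas (i+1) (j+1) (m-2)
      + C ((j : ℚ) * (j - 1)) * bas (i+1) (j-2) (m+1)
      + C ((j : ℚ) * (2 * n + 3 - j)) * bas (i+1) (j-1) m := by
    rw [D01_bas n i j m h, one_sub_bas, map_add, map_sub]
    ring
  rw [h1]
  obtain ⟨hi, hij, hs1, hs2⟩ := hS
  have hs1q : (n : ℚ) + 1 - k ≤ i * (n + 1 - i - j) := by exact_mod_cast hs1
  have hs2q : (k : ℚ) ≤ i * (i + j) := by exact_mod_cast hs2
  have hs2z : (k : ℤ) ≤ i * (i + j) := by exact_mod_cast hs2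
  have hiz : (1 : ℤ) ≤ i := by exact_mod_cast hi
  have hiq : (1 : ℚ) ≤ i := by exact_mod_cast hi
  have hnz : (n : ℤ) + 1 = 2 * i + j + m := by exact_mod_cast h
  have hnq : (n : ℚ) + 1 = 2 * i + j + m := by exact_mod_cast h
  have hkz : (1 : ℤ) ≤ k := by exact_mod_cast hk
  have hknz : (k : ℤ) ≤ n := by exact_mod_cast hkn
  have hknq : (k : ℚ) ≤ n := by exact_mod_cast hkn
  have hjz : (0 : ℤ) ≤ j := by positivity
  have hmz : (0 : ℤ) ≤ m := by positivity
  have hjq : (0 : ℚ) ≤ j := by positivity
  have hmq : (0 : ℚ) ≤ m := by positivity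
  have hk'z : (k' : ℤ) = k ∨ (k' : ℤ) = k + 1 := by
    rcases he with ⟨_, h⟩ | ⟨_, h⟩
    · left; exact_mod_cast h
    · right; exact_mod_cast h
  refine Cone.add (Cone.add (Cone.add (Cone.add (Cone.add ?_ ?_) ?_) ?_) ?_) ?_
  · -- term 1
    apply Cone.bas
    · rcases he with ⟨he, _⟩ | ⟨he, _⟩ <;> rw [he] <;> nlinarith
    · intro ha
      refine ⟨by omega, hi, by omega, ?_, ?_⟩
      · push_cast
        rcases hk'z with h | h <;> rw [h] <;> nlinarith
      · rcases he with ⟨he, hk'⟩ | ⟨he, hk'⟩
        · rw [hk']; exact hs2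
        · rw [hk']
          rcases hs2.lt_or_eq with h3 | h3
          · exact h3
          · exfalso
            apply ha
            rw [he]
            have : (k : ℚ) = i * (i + j) := by exact_mod_cast h3
            rw [this]; ring
  · -- term 2
    apply Cone.bas
    · rcases he with ⟨he, _⟩ | ⟨he, _⟩ <;> rw [he] <;> nlinarith
    · intro ha
      refine ⟨by omega, hi, by omega, ?_, ?_⟩
      · push_cast
        rcases he with ⟨he, hk'⟩ | ⟨he, hk'⟩
        · rw [hk']
          rcases hs1.lt_or_eq with h3 | h3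
          · nlinarith
          · exfalso
            apply ha
            rw [he]
            have : (n : ℚ) + 1 - k = i * (n + 1 - i - j) := by exact_mod_cast h3
            rw [← this]; ring
        · rw [hk']; push_cast; nlinarith
      · zify
        rcases hk'z with h | h <;> rw [h] <;> nlinarith
  · -- term 3
    apply Cone.bas
    · nlinarith
    · intro ha
      have hm : 1 ≤ m := by
        rcases Nat.eq_zero_or_pos m with h3 | h3
        · exfalso; apply ha; rw [h3]; simp
        · exact h3
      have hmz1 : (1 : ℤ) ≤ m := by exact_mod_cast hm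
      refine ⟨by omega, by omega, by omega, ?_, ?_⟩
      · push_cast
        rcases hk'z with h | h <;> rw [h] <;> nlinarith
      · zify
        rcases hk'z with h | h <;> rw [h] <;> nlinarith
  · -- term 4
    apply Cone.bas
    · rcases Nat.eq_zero_or_pos m with h3 | h3
      · rw [h3]; simp
      · have : (1 : ℚ) ≤ m := by exact_mod_cast h3
        nlinarith
    · intro ha
      have hm : 2 ≤ m := by
        rcases m with _ | _ | m
        · exfalso; apply ha; simp
        · exfalso; apply ha; simp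
        · omega
      have hmz1 : (2 : ℤ) ≤ m := by exact_mod_cast hm
      refine ⟨by omega, by omega, by omega, ?_, ?_⟩
      · push_cast
        rcases hk'z with h | h <;> rw [h] <;> nlinarith
      · zify
        rcases hk'z with h | h <;> rw [h] <;> nlinarith
  · -- term 5
    apply Cone.bas
    · rcases Nat.eq_zero_or_pos j with h3 | h3
      · rw [h3]; simp
      · have : (1 : ℚ) ≤ j := by exact_mod_cast h3
        nlinarith
    · intro ha
      have hj : 2 ≤ j := by
        rcases j with _ | _ | j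
        · exfalso; apply ha; simp
        · exfalso; apply ha; simp
        · omega
      have hjz1 : (2 : ℤ) ≤ j := by exact_mod_cast hj
      refine ⟨by omega, by omega, by omega, ?_, ?_⟩
      · push_cast [Nat.cast_sub hj]
        rcases hk'z with h | h <;> rw [h] <;> nlinarith
      · zify [hj]
        rcases hk'z with h | h <;> rw [h] <;> nlinarith
  · -- term 6
    apply Cone.bas
    · nlinarith
    · intro ha
      have hj : 1 ≤ j := by
        rcases Nat.eq_zero_or_pos j with h3 | h3
        · exfalso; apply ha; rw [h3]; simp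
        · exact h3
      have hjz1 : (1 : ℤ) ≤ j := by exact_mod_cast hj
      refine ⟨by omega, by omega, by omega, ?_, ?_⟩
      · push_cast [Nat.cast_sub hj]
        rcases hk'z with h | h <;> rw [h] <;> nlinarith
      · zify [hj]
        rcases hk'z with h | h <;> rw [h] <;> nlinarith

end Pool.Agent.H750R3
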