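import Mathlib

set_option autoImplicit false

namespace Pool.Agent.H750R3

open Finset

/-- number of descents of a permutation of `Fin n` -/
def desc {n : ℕ} (π : Equiv.Perm (Fin n)) : ℕ :=
  (Finset.univ.filter (fun k : Fin n => ∃ l : Fin n, l.val = k.val + 1 ∧ π l < π k)).card

/-- number of words over `α` whose stable sorting permutation is `π` -/
def cnt {n : ℕ} (α : Type) [Fintype α] [LinearOrder α] (π : Equiv.Perm (Fin n)) : ℕ :=
  (Finset.univ.filter (fun w : Fin n → α => Tuple.sort w = π)).card

theorem card_strictMono (n M : ℕ) :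
    (Finset.univ.filter (fun f : Fin n → Fin M => StrictMono f)).card = M.choose n := by
  classical
  have h0 : M.choose n = (Finset.powersetCard n (Finset.univ : Finset (Fin M))).card := by
    rw [Finset.card_powersetCard, Finset.card_fin]
  rw [h0]
  refine Finset.card_bij (fun f _ => Finset.univ.image f) ?_ ?_ ?_
  · intro f hf
    simp only [Finset.mem_filter, Finset.mem_univ, true_and] at hf
    simp [Finset.mem_powersetCard, Finset.card_image_of_injective _ hf.injective]
  · intro f hf g hg h
    simp only [Finset.mem_filter, Finset.mem_univ, true_and] at hf hg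
    have h2 : Set.range f = Set.range g := by
      have := congrArg (fun s : Finset (Fin M) => (s : Set (Fin M))) h
      simpa using this
    exact (StrictMono.range_inj hf hg).1 h2
  · intro s hs
    rw [Finset.mem_powersetCard] at hs
    refine ⟨s.orderEmbOfFin hs.2, ?_, ?_⟩
    · simp [OrderEmbedding.strictMono]
    · apply Finset.coe_injective
      rw [Finset.coe_image, Finset.coe_univ, Set.image_univ, Finset.range_orderEmbOfFin]

theorem cnt_congr {n : ℕ} {α β : Type} [Fintype α] [LinearOrder α] [Fintype β] [LinearOrder β]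
    (e : α ≃o β) (π : Equiv.Perm (Fin n)) : cnt α π = cnt β π := by
  classical
  unfold cnt
  refine Finset.card_bij (fun w _ => fun i => e (w i)) ?_ ?_ ?_
  · intro w hw
    simp only [Finset.mem_filter, Finset.mem_univ, true_and] at hw ⊢
    symm
    rw [Tuple.eq_sort_iff]
    have h1 := (Tuple.eq_sort_iff (f := w) (σ := π)).1 hw.symm
    refine ⟨fun i j hij => e.monotone (h1.1 hij), fun i j hij h => h1.2 i j hij (e.injective h)⟩
  · intro w _ w' _ h
    funext i
    exact e.injective (congrFun h i)
  · intro w hw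
    simp only [Finset.mem_filter, Finset.mem_univ, true_and] at hw
    refine ⟨fun i => e.symm (w i), ?_, by funext i; simp⟩
    simp only [Finset.mem_filter, Finset.mem_univ, true_and]
    symm
    rw [Tuple.eq_sort_iff]
    have h1 := (Tuple.eq_sort_iff (f := w) (σ := π)).1 hw.symm
    refine ⟨fun i j hij => e.symm.monotone (h1.1 hij),
      fun i j hij h => h1.2 i j hij (e.symm.injective h)⟩

/-- radix sort -/
theorem sort_lex {n : ℕ} {α β : Type} [LinearOrder α] [LinearOrder β]
    (u : Fin n → α) (v : Fin n → β) :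
    Tuple.sort (fun i => toLex (u i, v i)) = Tuple.sort v * Tuple.sort (u ∘ Tuple.sort v) := by
  symm
  rw [Tuple.eq_sort_iff]
  obtain ⟨h1, h2⟩ := (Tuple.eq_sort_iff (f := v) (σ := Tuple.sort v)).1 rfl
  obtain ⟨h3, h4⟩ := (Tuple.eq_sort_iff (f := u ∘ Tuple.sort v)
    (σ := Tuple.sort (u ∘ Tuple.sort v))).1 rfl
  set π := Tuple.sort v
  set σ := Tuple.sort (u ∘ π)
  constructor
  · intro i j hij
    rcases hij.eq_or_lt with rfl | hlt
    · exact le_rfl
    · have ha : u (π (σ i)) ≤ u (π (σ j)) := h3 hij
      simp only [Function.comp, Equiv.Perm.mul_apply]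
      rw [Prod.Lex.toLex_le_toLex]
      rcases ha.lt_or_eq with h | h
      · exact Or.inl h
      · exact Or.inr ⟨h, h1 (h4 i j hlt h).le⟩
  · intro i j hij h
    simp only [Equiv.Perm.mul_apply, EmbeddingLike.apply_eq_iff_eq, Prod.mk.injEq] at h ⊢
    exact h2 _ _ (h4 i j hij h.1) h.2

theorem cnt_lex {n : ℕ} {α β : Type} [Fintype α] [LinearOrder α] [Fintype β] [LinearOrder β]
    (τ : Equiv.Perm (Fin n)) :
    cnt (α ×ₗ β) τ = ∑ π : Equiv.Perm (Fin n), cnt β π * cnt α (π⁻¹ * τ) := by
  classical
  have h1 : cnt (α ×ₗ β) τ =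
      (Finset.univ.filter (fun z : (Fin n → α) × (Fin n → β) =>
        Tuple.sort (fun i => toLex (z.1 i, z.2 i)) = τ)).card := by
    unfold cnt
    refine Finset.card_bij (fun w _ => (fun i => (ofLex (w i)).1, fun i => (ofLex (w i)).2)) ?_ ?_ ?_
    · intro w hw
      simpa using hw
    · intro w _ w' _ h
      simp only [Prod.mk.injEq] at h
      funext i
      have ha := congrFun h.1 i
      have hb := congrFun h.2 i
      exact ofLex.injective (Prod.ext ha hb)
    · intro z hz
      refine ⟨fun i => toLex (z.1 i, z.2 i), by simpa using hz, rfl⟩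
  rw [h1]
  have h2 : (Finset.univ.filter (fun z : (Fin n → α) × (Fin n → β) =>
        Tuple.sort (fun i => toLex (z.1 i, z.2 i)) = τ)).card
      = ∑ π : Equiv.Perm (Fin n), (Finset.univ.filter (fun z : (Fin n → α) × (Fin n → β) =>
        Tuple.sort z.2 = π ∧ Tuple.sort (z.1 ∘ π) = π⁻¹ * τ)).card := by
    rw [← Finset.card_biUnion]
    · congr 1
      ext z
      simp only [Finset.mem_filter, Finset.mem_univ, true_and, Finset.mem_biUnion]
      rw [sort_lex]
      constructor
      · intro h
        exact ⟨Tuple.sort z.2, rfl, by rw [← h]; group⟩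
      · rintro ⟨π, rfl, h⟩
        rw [h]; group
    · intro π _ π' _ hne
      rw [Function.onFun, Finset.disjoint_left]
      intro z hz hz'
      simp only [Finset.mem_filter, Finset.mem_univ, true_and] at hz hz'
      exact hne (hz.1.symm.trans hz'.1)
  rw [h2]
  refine Finset.sum_congr rfl fun π _ => ?_
  unfold cnt
  rw [mul_comm, ← Finset.card_product]
  refine Finset.card_bij (fun z _ => (z.1 ∘ π, z.2)) ?_ ?_ ?_
  · intro z hz
    simp only [Finset.mem_filter, Finset.mem_univ, true_and] at hz
    simp [hz.1, hz.2]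
  · intro z _ z' _ h
    simp only [Prod.mk.injEq] at h
    refine Prod.ext ?_ h.2
    funext i
    have := congrFun h.1 (π⁻¹ i)
    simpa using this
  · intro z hz
    simp only [Finset.mem_product, Finset.mem_filter, Finset.mem_univ, true_and] at hz
    refine ⟨(z.1 ∘ ⇑π⁻¹, z.2), ?_, ?_⟩
    · simp only [Finset.mem_filter, Finset.mem_univ, true_and]
      refine ⟨hz.2, ?_⟩
      have : (z.1 ∘ ⇑π⁻¹) ∘ ⇑π = z.1 := by funext i; simp
      rw [this]; exact hz.1
    · refine Prod.ext ?_ rfl
      funext i; simp

end Pool.Agent.H750R3
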