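import Pool.Agent.H750R3.Count

set_option autoImplicit false

namespace Pool.Agent.H750R3

open Finset

theorem sort_eq_iff_succ {m : ℕ} {α : Type} [LinearOrder α] (w : Fin (m+1) → α)
    (π : Equiv.Perm (Fin (m+1))) :
    Tuple.sort w = π ↔ ∀ l : Fin m, w (π l.castSucc) < w (π l.succ) ∨
      (w (π l.castSucc) = w (π l.succ) ∧ π l.castSucc < π l.succ) := by
  rw [eq_comm, Tuple.eq_sort_iff', Fin.strictMono_iff_lt_succ]
  refine forall_congr' fun l => ?_
  have : ((π.trans (Tuple.graphEquiv₁ w)) l.castSucc < (π.trans (Tuple.graphEquiv₁ w)) l.succ) ↔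
      (toLex (w (π l.castSucc), π l.castSucc) < toLex (w (π l.succ), π l.succ)) := Iff.rfl
  rw [this, Prod.Lex.toLex_lt_toLex]

/-- number of ascents strictly before position `i` -/
def asb {m : ℕ} (π : Equiv.Perm (Fin (m+1))) (i : Fin (m+1)) : ℕ :=
  (Finset.univ.filter (fun l : Fin m => l.castSucc < i ∧ π l.castSucc < π l.succ)).card

theorem asb_zero {m : ℕ} (π : Equiv.Perm (Fin (m+1))) : asb π 0 = 0 := by
  unfold asb
  rw [Finset.card_eq_zero]
  ext l
  simp

theorem asb_succ {m : ℕ} (π : Equiv.Perm (Fin (m+1))) (l : Fin m) :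
    asb π l.succ = asb π l.castSucc + if π l.castSucc < π l.succ then 1 else 0 := by
  classical
  unfold asb
  by_cases h : π l.castSucc < π l.succ
  · rw [if_pos h]
    have : (Finset.univ.filter (fun l' : Fin m => l'.castSucc < l.succ ∧ π l'.castSucc < π l'.succ))
      = insert l (Finset.univ.filter
        (fun l' : Fin m => l'.castSucc < l.castSucc ∧ π l'.castSucc < π l'.succ)) := by
      ext l'
      simp only [Finset.mem_filter, Finset.mem_univ, true_and, Finset.mem_insert,
        Fin.castSucc_lt_succ_iff, Fin.castSucc_lt_castSucc_iff]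
      constructor
      · rintro ⟨h1, h2⟩
        rcases h1.lt_or_eq with h3 | h3
        · exact Or.inr ⟨h3, h2⟩
        · exact Or.inl h3
      · rintro (rfl | ⟨h1, h2⟩)
        · exact ⟨le_rfl, h⟩
        · exact ⟨h1.le, h2⟩
    rw [this, Finset.card_insert_of_notMem]
    simp
  · rw [if_neg h, add_zero]
    congr 1
    ext l'
    simp only [Finset.mem_filter, Finset.mem_univ, true_and,
        Fin.castSucc_lt_succ_iff, Fin.castSucc_lt_castSucc_iff]
    constructor
    · rintro ⟨h1, h2⟩
      rcases h1.lt_or_eq with h3 | h3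
      · exact ⟨h3, h2⟩
      · subst h3; exact absurd h2 h
    · rintro ⟨h1, h2⟩
      exact ⟨h1.le, h2⟩

theorem asb_le {m : ℕ} (π : Equiv.Perm (Fin (m+1))) (i : Fin (m+1)) : asb π i ≤ i.val := by
  induction i using Fin.induction with
  | zero => simp [asb_zero]
  | succ l ih =>
    rw [asb_succ]
    have : (l.succ : Fin (m+1)).val = l.castSucc.val + 1 := by simp
    split_ifs <;> omega

theorem desc_eq {m : ℕ} (π : Equiv.Perm (Fin (m+1))) :
    desc π = (Finset.univ.filter (fun l : Fin m => π l.succ < π l.castSucc)).card := by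
  classical
  unfold desc
  symm
  refine Finset.card_bij (fun l _ => l.castSucc) ?_ ?_ ?_
  · intro l hl
    simp only [Finset.mem_filter, Finset.mem_univ, true_and] at hl ⊢
    exact ⟨l.succ, by simp, hl⟩
  · intro l _ l' _ h
    exact Fin.castSucc_injective _ h
  · intro k hk
    simp only [Finset.mem_filter, Finset.mem_univ, true_and] at hk
    obtain ⟨l, hl, h⟩ := hk
    have hkm : k.val < m := by have := l.isLt; omega
    refine ⟨⟨k.val, hkm⟩, ?_, ?_⟩
    · simp only [Finset.mem_filter, Finset.mem_univ, true_and]
      have h1 : (⟨k.val, hkm⟩ : Fin m).succ = l := by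
        ext; simp [hl]
      have h2 : (⟨k.val, hkm⟩ : Fin m).castSucc = k := by
        ext; simp
      rw [h1, h2]; exact h
    · ext; simp

theorem desc_add_asb {m : ℕ} (π : Equiv.Perm (Fin (m+1))) : desc π + asb π (Fin.last m) = m := by
  classical
  rw [desc_eq]
  unfold asb
  rw [← Finset.card_union_of_disjoint]
  · have : (Finset.univ.filter (fun l : Fin m => π l.succ < π l.castSucc)) ∪
      (Finset.univ.filter (fun l : Fin m => l.castSucc < Fin.last m ∧ π l.castSucc < π l.succ))
      = Finset.univ := by
      ext l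
      simp only [Finset.mem_union, Finset.mem_filter, Finset.mem_univ, true_and, iff_true]
      rcases lt_trichotomy (π l.castSucc) (π l.succ) with h | h | h
      · exact Or.inr ⟨Fin.castSucc_lt_last l, h⟩
      · exact absurd (π.injective h) (by simp [Fin.ext_iff])
      · exact Or.inl h
    rw [this]; simp
  · rw [Finset.disjoint_left]
    intro l hl hl'
    simp only [Finset.mem_filter, Finset.mem_univ, true_and] at hl hl'
    exact absurd hl (not_lt.2 hl'.2.le)

theorem cnt_fin {m : ℕ} (x : ℕ) (π : Equiv.Perm (Fin (m+1))) :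
    cnt (Fin x) π = (x + asb π (Fin.last m)).choose (m+1) := by
  classical
  rw [← card_strictMono]
  unfold cnt
  have hb : ∀ w : Fin (m+1) → Fin x, Tuple.sort w = π →
      StrictMono (fun i => (w (π i)).val + asb π i) := by
    intro w hw
    rw [Fin.strictMono_iff_lt_succ]
    intro l
    have h := (sort_eq_iff_succ w π).1 hw l

    rw [asb_succ]
    rcases h with h | ⟨h1, h2⟩
    · have : (w (π l.castSucc)).val < (w (π l.succ)).val := h
      split_ifs <;> omega
    · rw [if_pos h2, h1]; omega
  refine Finset.card_bij (fun w hw => fun i => ⟨(w (π i)).val + asb π i, ?_⟩) ?_ ?_ ?_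
  · simp only [Finset.mem_filter, Finset.mem_univ, true_and] at hw
    have h1 := (hb w hw).monotone (Fin.le_last i)
    have h2 := (w (π (Fin.last m))).isLt

    omega
  · intro w hw
    simp only [Finset.mem_filter, Finset.mem_univ, true_and] at hw ⊢
    intro i j hij
    exact hb w hw hij
  · intro w _ w' _ h
    funext i
    have := congrFun h (π⁻¹ i)
    simp only [Equiv.Perm.coe_inv, Equiv.apply_symm_apply, Fin.mk.injEq, add_left_inj] at this
    exact Fin.ext this
  · intro b hb2
    simp only [Finset.mem_filter, Finset.mem_univ, true_and] at hb2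
    have hle : ∀ i : Fin (m+1), i.val ≤ (b i).val := by
      intro i
      induction i using Fin.induction with
      | zero => simp
      | succ l ih =>
        have h1 : (b l.castSucc).val < (b l.succ).val := hb2 (Fin.castSucc_lt_succ)
        have : (l.succ : Fin (m+1)).val = l.castSucc.val + 1 := by simp
        omega
    have hmono : Monotone (fun i => (b i).val - asb π i) := by
      rw [Fin.monotone_iff_le_succ]
      intro l
      have h1 : (b l.castSucc).val < (b l.succ).val := hb2 (Fin.castSucc_lt_succ)

      rw [asb_succ]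
      split_ifs <;> omega
    have hbd : ∀ i : Fin (m+1), (b i).val - asb π i < x := by
      intro i
      have h1 := hmono (Fin.le_last i)
      simp only at h1
      have h2 := (b (Fin.last m)).isLt
      have h3 := asb_le π (Fin.last m)
      have h4 := hle (Fin.last m)
      omega
    refine ⟨fun j => ⟨(b (π⁻¹ j)).val - asb π (π⁻¹ j), hbd _⟩, ?_, ?_⟩
    · simp only [Finset.mem_filter, Finset.mem_univ, true_and]
      rw [sort_eq_iff_succ]
      intro l
      simp only [Equiv.Perm.coe_inv, Equiv.symm_apply_apply, Fin.mk_lt_mk, Fin.mk.injEq]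
      have h1 : (b l.castSucc).val < (b l.succ).val := hb2 (Fin.castSucc_lt_succ)
      have h5 := asb_le π l.castSucc
      have h6 := hle l.castSucc
      rw [asb_succ]
      have hne : π l.castSucc ≠ π l.succ := by
        intro h
        exact absurd (π.injective h) (by simp [Fin.ext_iff])
      split_ifs with h
      · omega
      · omega
    · funext i
      apply Fin.ext
      simp only [Equiv.Perm.coe_inv, Equiv.symm_apply_apply]
      have h5 := asb_le π i
      have h6 := hle i
      omega

/-- The key product identity. -/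
theorem sum_choose {m : ℕ} (τ : Equiv.Perm (Fin (m+1))) (x y : ℕ) :
    ∑ π : Equiv.Perm (Fin (m+1)), (x + (m - desc π)).choose (m+1) *
      (y + (m - desc (π⁻¹ * τ))).choose (m+1) = (x * y + (m - desc τ)).choose (m+1) := by
  have h0 : ∀ π : Equiv.Perm (Fin (m+1)), m - desc π = asb π (Fin.last m) := by
    intro π
    have := desc_add_asb π
    omega
  have h1 := cnt_lex (α := Fin y) (β := Fin x) τ
  have e : (Fin y ×ₗ Fin x) ≃o Fin (x * y) := by
    have hc : Fintype.card (Fin y ×ₗ Fin x) = x * y := by
      have : Fintype.card (Fin y ×ₗ Fin x) = Fintype.card (Fin y × Fin x) := rfl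
      rw [this, Fintype.card_prod, Fintype.card_fin, Fintype.card_fin, mul_comm]
    exact (Fintype.orderIsoFinOfCardEq _ hc).symm
  rw [cnt_congr e, cnt_fin] at h1
  simp only [h0]
  rw [h1]
  refine Finset.sum_congr rfl fun π _ => ?_
  rw [cnt_fin, cnt_fin]

end Pool.Agent.H750R3
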