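import Pool.Agent.H750R3.Cond

set_option autoImplicit false

namespace Pool.Agent.H750R3

open Real

/-- test points in the exponential coordinate -/
noncomputable def qq (m j : ℕ) : ℝ :=
  if 2*j^2 ≤ m then (((j:ℝ) - 1)/((j:ℝ)+1))^m
  else Real.exp (-(π / Real.tan (j*π/(2*(m:ℝ)+1))))

theorem theta_bounds (m j : ℕ) (hj : 1 ≤ j) (hjm : j ≤ m) :
    0 < (j:ℝ)*π/(2*(m:ℝ)+1) ∧ (j:ℝ)*π/(2*(m:ℝ)+1) < π/2 := by
  have hpi := Real.pi_pos
  have hj' : (1:ℝ) ≤ j := by exact_mod_cast hj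
  have hjm' : (j:ℝ) ≤ m := by exact_mod_cast hjm
  have hj0 : (0:ℝ) < j := by linarith
  constructor
  · positivity
  · rw [div_lt_div_iff₀ (by positivity) (by norm_num)]
    nlinarith

theorem tan_pos' (m j : ℕ) (hj : 1 ≤ j) (hjm : j ≤ m) :
    0 < Real.tan ((j:ℝ)*π/(2*(m:ℝ)+1)) := by
  obtain ⟨h1, h2⟩ := theta_bounds m j hj hjm
  exact Real.tan_pos_of_pos_of_lt_pi_div_two h1 h2

theorem qq_pos (m j : ℕ) (hj : 2 ≤ j) : 0 < qq m j := by
  unfold qq
  have hj' : (2:ℝ) ≤ j := by exact_mod_cast hj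
  split_ifs with h
  · apply pow_pos
    apply div_pos <;> linarith
  · positivity

theorem qq_lt_one (m j : ℕ) (hj : 2 ≤ j) (hjm : j ≤ m) : qq m j < 1 := by
  unfold qq
  have hj' : (2:ℝ) ≤ j := by exact_mod_cast hj
  have hpi := Real.pi_pos
  split_ifs with h
  · apply pow_lt_one₀ _ _ (by omega)
    · apply div_nonneg <;> linarith
    · rw [div_lt_one (by linarith)]; linarith
  · rw [Real.exp_lt_one_iff]
    have h1 := tan_pos' m j (by omega) hjm
    have : 0 < π / Real.tan (j*π/(2*(m:ℝ)+1)) := by positivity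
    linarith

theorem xB_bound (m j : ℕ) (hj : 1 ≤ j) (hjm : j ≤ m) :
    π / Real.tan ((j:ℝ)*π/(2*(m:ℝ)+1)) < (2*(m:ℝ)+1)/j := by
  obtain ⟨h1, h2⟩ := theta_bounds m j hj hjm
  have h3 := Real.lt_tan h1 h2
  have hpi := Real.pi_pos
  have hj' : (0:ℝ) < j := by exact_mod_cast hj
  rw [div_lt_div_iff₀ (by linarith) hj']
  rw [div_lt_iff₀ (by positivity)] at h3
  linarith

theorem log_bound (j : ℕ) (hj : 2 ≤ j) : 2/(j:ℝ) ≤ Real.log (((j:ℝ)+1)/((j:ℝ)-1)) := by
  have hj' : (2:ℝ) ≤ j := by exact_mod_cast hj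
  have h := Real.le_log_one_add_of_nonneg (x := 2/((j:ℝ)-1)) (by
    apply div_nonneg <;> linarith)
  have h0 : (j:ℝ) - 1 ≠ 0 := by linarith
  have e1 : 1 + 2/((j:ℝ)-1) = ((j:ℝ)+1)/((j:ℝ)-1) := by field_simp; ring
  rw [e1] at h
  refine le_trans (le_of_eq ?_) h
  have h2 : 2/((j:ℝ)-1) + 2 = 2 * j/((j:ℝ)-1) := by field_simp; ring
  rw [h2]
  have h3 : (j:ℝ) ≠ 0 := by linarith
  field_simp

theorem qq_lt_succ (m j : ℕ) (hj : 2 ≤ j) (hjm : j + 1 ≤ m) : qq m j < qq m (j+1) := by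
  have hj' : (2:ℝ) ≤ j := by exact_mod_cast hj
  have hpi := Real.pi_pos
  have hjm' : (j:ℝ) + 1 ≤ m := by exact_mod_cast hjm
  unfold qq
  by_cases h1 : 2*j^2 ≤ m
  · rw [if_pos h1]
    by_cases h2 : 2*(j+1)^2 ≤ m
    · rw [if_pos h2]
      apply pow_lt_pow_left₀ _ _ (by omega)
      · push_cast
        rw [div_lt_div_iff₀ (by linarith) (by linarith)]
        nlinarith
      · apply div_nonneg <;> linarith
    · rw [if_neg h2]
      have h3 := log_bound j hj
      have h4 := xB_bound m (j+1) (by omega) hjm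
      have e1 : (((j:ℝ) - 1)/((j:ℝ)+1))^m = Real.exp (-(m * Real.log (((j:ℝ)+1)/((j:ℝ)-1)))) := by
        rw [← mul_neg, ← Real.log_inv, inv_div, Real.exp_nat_mul, Real.exp_log]
        apply div_pos <;> linarith
      rw [e1]
      apply Real.exp_lt_exp.2
      have h5 : (2*(m:ℝ)+1)/((j+1 : ℕ):ℝ) ≤ m * (2/(j:ℝ)) := by
        push_cast
        rw [mul_div_assoc', div_le_div_iff₀ (by linarith) (by linarith)]
        nlinarith
      have h6 : (m:ℝ) * (2/(j:ℝ)) ≤ m * Real.log (((j:ℝ)+1)/((j:ℝ)-1)) :=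
        mul_le_mul_of_nonneg_left h3 (by positivity)
      linarith
  · rw [if_neg h1]
    have h2 : ¬ (2*(j+1)^2 ≤ m) := by
      intro h; apply h1; nlinarith
    rw [if_neg h2]
    apply Real.exp_lt_exp.2
    apply neg_lt_neg
    have h3 := tan_pos' m j (by omega) (by omega)
    apply div_lt_div_of_pos_left hpi h3
    obtain ⟨a1, a2⟩ := theta_bounds m j (by omega) (by omega)
    obtain ⟨b1, b2⟩ := theta_bounds m (j+1) (by omega) (by omega)
    apply Real.strictMonoOn_tan ⟨by linarith, a2⟩ ⟨by linarith, b2⟩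
    push_cast
    apply div_lt_div_of_pos_right _ (by positivity)
    nlinarith

theorem sign_pts (m j : ℕ) (s : ℤˣ) (hm : 4 ≤ m) (hj : 2 ≤ j) (hjm : j ≤ m) :
    0 < (-1 : ℝ) ^ (j+1) * (H (2*m-1) s).eval (1 / (1 + qq m j)) := by
  have hpi := Real.pi_pos
  by_cases h1 : 2*j^2 ≤ m
  · have : qq m j = (((j:ℝ) - 1)/((j:ℝ)+1))^m := by unfold qq; rw [if_pos h1]
    rw [this]
    exact regA m j s hj h1
  · have hq0 := qq_pos m j hj
    have hq1 := qq_lt_one m j hj hjm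
    have h2 := hasSum_P (2*m-1) s (-(qq m j)) (by rw [abs_neg, abs_of_pos hq0]; exact hq1)
    have e1 : 2 * m - 1 + 1 = 2 * m := by omega
    have e2 : (2 * m - 1 + 2) / 2 = m := by omega
    rw [e1, e2] at h2
    refine even_sign m j s (by omega) _ _ hq0 hq1 h2 ?_
    set θ := (j:ℝ)*π/(2*(m:ℝ)+1) with hθ
    obtain ⟨t1, t2⟩ := theta_bounds m j (by omega) hjm
    rw [← hθ] at t1 t2
    have hsin : 0 < Real.sin θ := Real.sin_pos_of_pos_of_lt_pi t1 (by linarith)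
    have hcos : 0 < Real.cos θ := Real.cos_pos_of_mem_Ioo ⟨by linarith, t2⟩
    have htan := tan_pos' m j (by omega) hjm
    rw [← hθ] at htan
    have hq : qq m j = Real.exp (-(π / Real.tan θ)) := by unfold qq; rw [if_neg h1]
    have hx : 0 < π / Real.tan θ := by positivity
    have hxb := xB_bound m j (by omega) hjm
    rw [← hθ] at hxb
    refine regB_core m j s (by omega) (π / Real.tan θ) θ hx hsin ?_ ?_ _ ?_ ?_
    · rw [Real.tan_eq_sin_div_cos]; field_simp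
    · rw [hθ]; field_simp
    · rw [← hq]; exact h2
    · exact condC_all m j hm hj (by omega) _ hx hxb.le

end Pool.Agent.H750R3
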