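import Pool.Agent.H750R3.Small
import Pool.Agent.H750R3.Pts

set_option autoImplicit false

namespace Pool.Agent.H750R3

open Polynomial

theorem even_splits (m : ℕ) (hm : 1 ≤ m) (s : ℤˣ) : (H (2*m-1) s).Splits := by
  rcases Nat.lt_or_ge m 4 with h | h
  · exact even_small m hm (by omega) s
  · refine main_even m hm (fun j => if j = 1 then 1 else 1 / (1 + qq m j)) (by simp) ?_ ?_ ?_ s
    · intro j h1 h2
      split_ifs with h3
      · norm_num
      · have hq0 := qq_pos m j (by omega)
        have hq1 := qq_lt_one m j (by omega) h2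
        apply one_div_lt_one_div_of_lt (by linarith)
        linarith
    · intro j h1 h2
      have hq0' := qq_pos m (j+1) (by omega)
      rw [if_neg (by omega : ¬ (j + 1 = 1))]
      split_ifs with h3
      · rw [div_lt_one (by linarith)]; linarith
      · have hq0 := qq_pos m j (by omega)
        have hq1 := qq_lt_succ m j (by omega) h2
        apply one_div_lt_one_div_of_lt (by linarith)
        linarith
    · intro s j h1 h2
      rw [if_neg (by omega : ¬ (j = 1))]
      exact sign_pts m j s h h1 h2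

theorem choose_id (n d x : ℕ) (hd : d + 1 ≤ n) :
    x * (x + (n - 1 - d)).choose n =
      (d+1) * (x + (n - d)).choose (n+1) + (n-d) * (x + (n - (d+1))).choose (n+1) := by
  have e1 : x + (n - d) = (x + (n - 1 - d)) + 1 := by omega
  have e2 : x + (n - (d+1)) = x + (n - 1 - d) := by omega
  rw [e1, e2]
  set N := x + (n - 1 - d) with hN
  rw [Nat.choose_succ_succ]
  rcases Nat.lt_or_ge N n with h | h
  · rw [Nat.choose_eq_zero_of_lt h, Nat.choose_eq_zero_of_lt (by omega : N < n+1)]
    simp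
  · have h1 := Nat.choose_succ_right_eq N n
    have h2 : x = (d + 1) + (N - n) := by omega
    have h3 : n + 1 = (d+1) + (n-d) := by omega
    have h4 : x * N.choose n = (d+1) * N.choose n + N.choose n * (N - n) := by
      conv_lhs => rw [h2]
      ring
    have h5 : N.choose (n+1) * (n+1) = (d+1) * N.choose (n+1) + (n-d) * N.choose (n+1) := by
      rw [← add_mul, ← h3, mul_comm]
    rw [h4, ← h1, h5]
    ring

theorem hasSum_H (k : ℕ) (s : ℤˣ) (t : ℝ) (ht : |t| < 1) :
    HasSum (fun x : ℕ => ((x : ℝ) ^ (k+1) + ((s : ℤ) : ℝ) * (x : ℝ) ^ ((k + 2) / 2)) * t ^ x)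
      (2 * (t * (H k s).eval (1 / (1 - t)) / (1 - t) ^ 2)) := by
  have h := hasSum_P k s t ht
  have ht1 : t ≠ 1 := by
    rintro rfl
    norm_num at ht
  have h1 : (1 - t) ≠ 0 := sub_ne_zero.2 (Ne.symm ht1)
  rw [H_eval k s t ht1]
  have e : 2 * (t * ((P k s).eval t / (1 - t)^k) / (1 - t)^2) = 2 * (t * (P k s).eval t / (1 - t) ^ (k+2)) := by
    rw [pow_add]; field_simp
  rw [e]; exact h

/-- basis element -/
noncomputable def bas (n d : ℕ) : ℝ[X] := (X - 1)^d * X^(n-d)

theorem bas_eval (n d : ℕ) (hd : d ≤ n) (t : ℝ) (ht : t ≠ 1) :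
    (bas n d).eval (1 / (1 - t)) = t^d / (1-t)^n := by
  unfold bas
  have h1 : (1 - t) ≠ 0 := sub_ne_zero.2 (Ne.symm ht)
  simp only [eval_mul, eval_pow, eval_sub, eval_X, eval_one]
  have h2 : (1 / (1 - t) - 1) = t / (1 - t) := by field_simp; ring
  rw [h2, div_pow, div_pow, one_pow, div_mul_div_comm, mul_one, ← pow_add]
  congr 2
  omega

theorem deriv_H (n : ℕ) (hn : 1 ≤ n) (s : ℤˣ) :
    derivative (X * (X - 1) * H (n-1) s) =
      ∑ π ∈ (Finset.univ : Finset (Equiv.Perm (Fin (n-1+1)))).filter (fun π => Equiv.Perm.sign π = s),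
        (((desc π : ℝ[X]) + 1) * bas n (desc π) + ((n - desc π : ℕ) : ℝ[X]) * bas n (desc π + 1)) := by
  unfold H
  rw [Finset.mul_sum, derivative_sum]
  refine Finset.sum_congr rfl fun π _ => ?_
  have hd := desc_le' π
  set d := desc π
  have e1 : X * (X - 1) * ((X - 1)^d * X^(n-1-d)) = (X - 1 : ℝ[X])^(d+1) * X^(n-d) := by
    have : n - d = n-1-d+1 := by omega
    rw [this, pow_succ, pow_succ]; ring
  rw [e1]
  unfold bas
  rw [derivative_mul, derivative_pow, derivative_X_pow]
  have e2 : n - d - 1 = n - (d+1) := by omega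
  rw [e2]
  simp only [derivative_sub, derivative_X, derivative_one, sub_zero, mul_one, Nat.add_sub_cancel]
  simp only [map_natCast, map_add, map_one, Nat.cast_add, Nat.cast_one]
  ring

theorem hasSum_deriv_H (n : ℕ) (hn : 1 ≤ n) (s : ℤˣ) (t : ℝ) (ht : |t| < 1) :
    HasSum (fun x : ℕ => (x : ℝ) * ((x : ℝ) ^ n + ((s : ℤ) : ℝ) * (x : ℝ) ^ ((n + 1) / 2)) * t ^ x)
      (2 * (t * (derivative (X * (X - 1) * H (n-1) s)).eval (1 / (1 - t)) / (1 - t) ^ 2)) := by
  have ht1 : t ≠ 1 := by
    rintro rfl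
    norm_num at ht
  have h1' : (1 - t) ≠ 0 := sub_ne_zero.2 (Ne.symm ht1)
  have h1 : ∀ x : ℕ, (x:ℝ) * ((x : ℝ) ^ n + ((s : ℤ) : ℝ) * (x : ℝ) ^ ((n + 1) / 2)) * t ^ x =
      2 * ∑ π ∈ (Finset.univ : Finset (Equiv.Perm (Fin (n-1+1)))).filter (fun π => Equiv.Perm.sign π = s),
        (((desc π : ℝ) + 1) * ((((x + (n - desc π)).choose (n+1) : ℕ) : ℝ) * t ^ x) +
          ((n - desc π : ℕ) : ℝ) * ((((x + (n - (desc π + 1))).choose (n+1) : ℕ) : ℝ) * t ^ x)) := by
    intro x
    have h := worp (m := n-1) s x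
    have h' := congrArg (fun z : ℤ => (z : ℝ)) h
    push_cast at h'
    have e3 : n - 1 + 1 = n := by omega
    have e4 : (n - 1 + 2) / 2 = (n+1)/2 := by omega
    rw [e4] at h'
    have e5 : (x:ℝ)^n = (x:ℝ)^(n-1+1) := by rw [e3]
    rw [e5, ← h', Finset.mul_sum, Finset.mul_sum, Finset.mul_sum, Finset.sum_mul]
    refine Finset.sum_congr rfl fun π _ => ?_
    have hd := desc_le' π
    have h2 := choose_id n (desc π) x (by omega)
    have h3 := congrArg (fun z : ℕ => (z : ℝ)) h2
    simp only [Nat.cast_mul, Nat.cast_add, Nat.cast_one] at h3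
    have e6 : (x + (n - 1 - desc π)).choose (n-1+1) = (x + (n - 1 - desc π)).choose n :=
      congrArg (fun k => (x + (n - 1 - desc π)).choose k) e3
    rw [e6]
    linear_combination (2 * t^x) * h3
  simp only [h1]
  apply HasSum.mul_left
  rw [deriv_H n hn s, eval_finsetSum, Finset.mul_sum, Finset.sum_div]
  refine hasSum_sum fun π _ => ?_
  have hd := desc_le' π
  have h2 := (hasSum_basic n (desc π) (by omega) t ht).mul_left ((desc π : ℝ) + 1)
  have h3 := (hasSum_basic n (desc π + 1) (by omega) t ht).mul_left ((n - desc π : ℕ) : ℝ)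
  have h4 := h2.add h3
  convert h4 using 1
  simp only [eval_add, eval_mul, eval_natCast, eval_one]
  rw [bas_eval n _ (by omega) t ht1, bas_eval n _ (by omega) t ht1]
  field_simp
  ring

end Pool.Agent.H750R3
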