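import Pool.Agent.H750R3.Cone

set_option autoImplicit false

namespace Pool.Agent.H750R3

open MvPolynomial

/-- the transfer operator -/
noncomputable def TT (n : ℕ) (e : ℚ) (P : MvPolynomial (Fin 2) ℚ) : MvPolynomial (Fin 2) ℚ :=
  D0 n (D1 n P) + C e * ((1 - X 0) * ((1 - X 1) * P))

theorem TT_add (n : ℕ) (e : ℚ) (P Q : MvPolynomial (Fin 2) ℚ) :
    TT n e (P + Q) = TT n e P + TT n e Q := by
  unfold TT; rw [D1_add, D0_add]; ring

theorem TT_C_mul (n : ℕ) (e c : ℚ) (P : MvPolynomial (Fin 2) ℚ) :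
    TT n e (C c * P) = C c * TT n e P := by
  unfold TT; rw [D1_C_mul, D0_C_mul]; ring

theorem TT_zero (n : ℕ) (e : ℚ) : TT n e 0 = 0 := by
  have := TT_C_mul n e 0 0
  simpa using this

theorem TT_sum (n : ℕ) (e : ℚ) {ι : Type} (s : Finset ι) (f : ι → MvPolynomial (Fin 2) ℚ) :
    TT n e (∑ i ∈ s, f i) = ∑ i ∈ s, TT n e (f i) := by
  classical
  induction s using Finset.induction_on with
  | empty => simpa using TT_zero n e
  | insert a s ha ih => rw [Finset.sum_insert ha, Finset.sum_insert ha, TT_add, ih]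

theorem Cone.step {n k : ℕ} {P : MvPolynomial (Fin 2) ℚ} (hP : Cone n k P) (hk : 1 ≤ k) (hkn : k ≤ n)
    (e : ℚ) (k' : ℕ) (he : (e = n + 1 - k ∧ k' = k) ∨ (e = -k ∧ k' = k + 1)) :
    Cone (n+1) k' (TT n e P) := by
  obtain ⟨c, hc, hs, rfl⟩ := hP
  rw [TT_sum]
  apply Cone.sum
  intro i hi
  rw [TT_sum]
  apply Cone.sum
  intro j hj
  rw [Finset.mem_range] at hi hj
  rw [TT_C_mul]
  by_cases h0 : c i j = 0
  · rw [h0]; simpa using Cone.zero _ _
  · exact Cone.smul (step_bas e k' (by omega) (hs i j h0) hk hkn he) (hc i j)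

theorem Phi_TT (n : ℕ) (e x y : ℚ) (P : MvPolynomial (Fin 2) ℚ) :
    Phi (n+1) (n+1) x y (TT n e P) = (x * y + e) * Phi n n x y P := by
  unfold TT
  rw [map_add, Phi_D0, Phi_D1, ← smul_eq_C_mul, map_smul, Phi_one_sub_0, Phi_one_sub_1, smul_eq_mul]
  ring

theorem exists_cone (n : ℕ) : ∀ k : ℕ, 1 ≤ k → k ≤ n + 1 →
    ∃ P : MvPolynomial (Fin 2) ℚ, Cone (n+1) k P ∧
      ∀ x y : ℚ, Phi (n+1) (n+1) x y P = Bn (n+1) k (x * y) := by
  induction n with
  | zero =>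
    intro k hk hk1
    have hk2 : k = 1 := by omega
    subst hk2
    refine ⟨C 1 * bas 1 0 0, Cone.bas 1 zero_le_one (fun _ => ⟨by norm_num, ?_⟩), ?_⟩
    · refine ⟨le_rfl, by norm_num, by norm_num, by norm_num⟩
    · intro x y
      have h1 : (C 1 * bas 1 0 0 : MvPolynomial (Fin 2) ℚ)
          = monomial (Finsupp.single 0 1 + Finsupp.single 1 1) 1 := by
        unfold bas
        simp [X, monomial_mul]
      rw [h1, Phi_monomial]
      simp [Bn, Finsupp.single_apply]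
  | succ n ih =>
    intro k hk hk1
    rcases Nat.lt_or_ge (n+1) k with h | h
    · have hk2 : k = n + 1 + 1 := by omega
      obtain ⟨P, hP, hPhi⟩ := ih (n+1) (by omega) le_rfl
      refine ⟨C (1 / ((n + 1 : ℕ) + 1 : ℚ)) * TT (n+1) (-((n+1 : ℕ) : ℚ)) P,
        Cone.smul (Cone.step hP (by omega) le_rfl _ _ (Or.inr ⟨rfl, hk2⟩)) (by positivity), ?_⟩
      intro x y
      rw [← smul_eq_C_mul, map_smul, Phi_TT, hPhi, hk2, smul_eq_mul]
      have h3 := Bn_succ' (n+1) (n+1) (x*y)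
      have h4 : (((n + 1 : ℕ) : ℚ) + 1) ≠ 0 := by positivity
      rw [← sub_eq_add_neg, ← h3]
      field_simp
    · obtain ⟨P, hP, hPhi⟩ := ih k hk h
      refine ⟨C (1 / ((n + 1 : ℕ) + 1 : ℚ)) * TT (n+1) (((n+1 : ℕ) : ℚ) + 1 - k) P,
        Cone.smul (Cone.step hP hk h _ _ (Or.inl ⟨rfl, rfl⟩)) (by positivity), ?_⟩
      intro x y
      rw [← smul_eq_C_mul, map_smul, Phi_TT, hPhi, smul_eq_mul]
      have h3 := Bn_succ (n+1) k (x*y)
      have h4 : (((n + 1 : ℕ) : ℚ) + 1) ≠ 0 := by positivity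
      have h5 : (x * y + (((n + 1 : ℕ) : ℚ) + 1 - k)) = (x * y + ((n + 1 : ℕ) : ℚ) + 1 - k) := by ring
      rw [h5, ← h3]
      field_simp

theorem degreeOf_bas (v : Fin 2) (i j m : ℕ) : degreeOf v (bas i j m) ≤ i + j + m := by
  have hX : ∀ w : Fin 2, degreeOf v (X w : MvPolynomial (Fin 2) ℚ) ≤ 1 := by
    intro w
    rw [degreeOf_X]; split_ifs <;> simp
  have hp : degreeOf v (X 0 * X 1 : MvPolynomial (Fin 2) ℚ) ≤ 1 := by
    refine (degreeOf_mul_le _ _ _).trans ?_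
    rw [degreeOf_X, degreeOf_X]
    fin_cases v <;> simp
  have hs : degreeOf v (X 0 + X 1 : MvPolynomial (Fin 2) ℚ) ≤ 1 :=
    (degreeOf_add_le _ _ _).trans (max_le (hX 0) (hX 1))
  have hw : degreeOf v (1 + X 0 * X 1 : MvPolynomial (Fin 2) ℚ) ≤ 1 := by
    refine (degreeOf_add_le _ _ _).trans (max_le ?_ hp)
    simp
  unfold bas
  refine (degreeOf_mul_le _ _ _).trans (Nat.add_le_add ((degreeOf_mul_le _ _ _).trans
    (Nat.add_le_add ?_ ?_)) ?_)
  · exact (degreeOf_pow_le _ _ _).trans (by nlinarith)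
  · exact (degreeOf_pow_le _ _ _).trans (by nlinarith)
  · exact (degreeOf_pow_le _ _ _).trans (by nlinarith)

theorem Cone.degreeOf_le {n k : ℕ} {P : MvPolynomial (Fin 2) ℚ} (hP : Cone n k P) (v : Fin 2) :
    degreeOf v P ≤ n := by
  obtain ⟨c, hc, hs, rfl⟩ := hP
  refine (degreeOf_sum_le _ _ _).trans (Finset.sup_le fun i hi => ?_)
  refine (degreeOf_sum_le _ _ _).trans (Finset.sup_le fun j hj => ?_)
  rw [Finset.mem_range] at hi hj
  by_cases h0 : c i j = 0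
  · rw [h0]; simp
  · have h1 := (hs i j h0).1
    refine (degreeOf_C_mul_le _ _ _).trans ((degreeOf_bas v _ _ _).trans ?_)
    omega

end Pool.Agent.H750R3
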