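import Pool.Agent.H750R3.Exist
import Pool.Agent.H750R3.Count2

set_option autoImplicit false

namespace Pool.Agent.H750R3

open MvPolynomial

theorem Bn_lt (n a x : ℕ) (h : a ≤ n) (hx : x < a) : Bn n a x = 0 := by
  rw [Bn_nat n a x h, Nat.choose_eq_zero_of_lt (by omega)]; simp

theorem Bn_self (n a : ℕ) (h : a ≤ n) : Bn n a a = 1 := by
  rw [Bn_nat n a a h, show a + (n - a) = n by omega, Nat.choose_self]; simp

theorem Phi_eq_sum (n : ℕ) (x y : ℚ) (D : MvPolynomial (Fin 2) ℚ) :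
    Phi n n x y D = ∑ m ∈ D.support, coeff m D * (Bn n (m 0) x * Bn n (m 1) y) := by
  conv_lhs => rw [← support_sum_monomial_coeff D]
  rw [map_sum]
  exact Finset.sum_congr rfl fun m _ => Phi_monomial _ _ _ _ _ _

theorem eq_zero_of_Phi (n : ℕ) (D : MvPolynomial (Fin 2) ℚ) (hD : ∀ v, degreeOf v D ≤ n)
    (h : ∀ x y : ℕ, Phi n n x y D = 0) : D = 0 := by
  classical
  by_contra hne
  have hs : D.support.Nonempty := by
    rw [Finset.nonempty_iff_ne_empty]
    intro h0
    exact hne (support_eq_empty.1 h0)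
  obtain ⟨m, hm, hmin⟩ := Finset.exists_min_image D.support
    (fun m => toLex (m 0, m 1)) hs
  have hdeg : ∀ m' ∈ D.support, ∀ v, m' v ≤ n := by
    intro m' hm' v
    exact (degreeOf_le_iff.1 (hD v)) m' hm'
  have h1 := h (m 0) (m 1)
  rw [Phi_eq_sum, Finset.sum_eq_single m] at h1
  · rw [Bn_self n _ (hdeg m hm 0), Bn_self n _ (hdeg m hm 1)] at h1
    rw [mem_support_iff] at hm
    apply hm
    simpa using h1
  · intro m' hm' hmm
    have h2 := hmin m' hm'
    rw [Prod.Lex.toLex_le_toLex] at h2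
    rcases h2 with h2 | ⟨h2, h3⟩
    · rw [Bn_lt n (m' 0) (m 0) (hdeg m' hm' 0) h2]; simp
    · simp only at h2 h3
      have h4 : m 1 < m' 1 := by
        rcases h3.lt_or_eq with h4 | h4
        · exact h4
        · exfalso
          apply hmm
          ext v
          fin_cases v
          · exact h2.symm
          · exact h4.symm
      rw [Bn_lt n (m' 1) (m 1) (hdeg m' hm' 1) h4]; simp
  · intro h2; exact absurd hm h2

/-- integrality by triangularity -/
theorem integral_of_triangular {ι : Type} (s : Finset ι) (c : ι → ℚ) (v : ι → ℕ)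
    (q : ι → Polynomial ℤ) (P : Polynomial ℤ)
    (hv : ∀ a ∈ s, ∀ b ∈ s, v a = v b → a = b)
    (hq : ∀ a ∈ s, (q a).coeff 0 = 1)
    (hP : P.map (Int.castRingHom ℚ) =
      ∑ a ∈ s, Polynomial.C (c a) * (Polynomial.X ^ (v a) * (q a).map (Int.castRingHom ℚ))) :
    ∀ N : ℕ, ∀ a ∈ s, v a = N → c a ∈ (Int.castRingHom ℚ).range := by
  classical
  intro N
  induction N using Nat.strong_induction_on with
  | _ N ih =>
    intro a ha hN
    have h1 := congrArg (fun p => Polynomial.coeff p N) hP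
    simp only [Polynomial.coeff_map, Polynomial.finsetSum_coeff, Polynomial.coeff_C_mul] at h1
    rw [← Finset.add_sum_erase s _ ha] at h1
    have h2 : (Polynomial.X ^ (v a) * (q a).map (Int.castRingHom ℚ)).coeff N = 1 := by
      rw [← hN, Polynomial.coeff_X_pow_mul', if_pos le_rfl, Nat.sub_self, Polynomial.coeff_map, hq a ha]
      simp
    rw [h2, mul_one] at h1
    have h3 : c a = (Int.castRingHom ℚ) (P.coeff N) - ∑ x ∈ s.erase a,
        c x * (Polynomial.X ^ (v x) * (q x).map (Int.castRingHom ℚ)).coeff N := by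
      rw [h1]; ring
    rw [h3]
    refine sub_mem ⟨_, rfl⟩ (sum_mem fun x hx => ?_)
    rw [Finset.mem_erase] at hx
    rw [Polynomial.coeff_X_pow_mul']
    split_ifs with h4
    · rcases h4.lt_or_eq with h5 | h5
      · refine mul_mem (ih _ h5 x hx.2 rfl) ?_
        rw [Polynomial.coeff_map]
        exact ⟨_, rfl⟩
      · exact absurd (hv x hx.2 a ha (h5.trans hN.symm)) hx.1
    · rw [mul_zero]; exact zero_mem _

/-- substitution `s = X^M`, `t = X^(M+1)` -/
noncomputable def subM (M : ℕ) : MvPolynomial (Fin 2) ℚ →ₐ[ℚ] Polynomial ℚ :=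
  aeval (fun v : Fin 2 => if v = 0 then Polynomial.X ^ M else Polynomial.X ^ (M+1))

theorem subM_bas (M i j m : ℕ) : subM M (bas i j m) =
    Polynomial.X ^ (M * (2 * i + j) + i) *
      (((1 + Polynomial.X) ^ j * (1 + Polynomial.X ^ (2 * M + 1)) ^ m : Polynomial ℤ)).map
        (Int.castRingHom ℚ) := by
  unfold bas subM
  simp only [map_mul, map_pow, map_add, aeval_X, map_one, if_true, Polynomial.map_mul,
    Polynomial.map_pow, Polynomial.map_add, Polynomial.map_one, Polynomial.map_X,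
    show ((1 : Fin 2) = 0) = False by simp, if_false]
  have h1 : (Polynomial.X ^ M + Polynomial.X ^ (M+1) : Polynomial ℚ)
      = Polynomial.X ^ M * (1 + Polynomial.X) := by ring
  rw [h1, mul_pow (Polynomial.X ^ M) (1 + Polynomial.X) j]
  ring

theorem cone_integral {n : ℕ} (c : ℕ → ℕ → ℚ) (P : MvPolynomial (Fin 2) ℚ) (P0 : Polynomial ℤ)
    (hP : P = ∑ i ∈ Finset.range (n + 2), ∑ j ∈ Finset.range (n + 2 - 2 * i),
      C (c i j) * bas i j (n + 1 - j - 2 * i))
    (hP0 : subM (n + 2) P = P0.map (Int.castRingHom ℚ)) :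
    ∀ i < n + 2, ∀ j < n + 2 - 2 * i, c i j ∈ (Int.castRingHom ℚ).range := by
  classical
  intro i hi j hj
  have key := integral_of_triangular
    ((Finset.range (n+2)).sigma (fun i => Finset.range (n + 2 - 2 * i)))
    (fun a => c a.1 a.2) (fun a => (n + 2) * (2 * a.1 + a.2) + a.1)
    (fun a => ((1 + Polynomial.X) ^ a.2 * (1 + Polynomial.X ^ (2 * (n+2) + 1)) ^ (n + 1 - a.2 - 2 * a.1)))
    P0 ?_ ?_ ?_ _ ⟨i, j⟩ ?_ rfl
  · exact key
  · rintro ⟨i1, j1⟩ h1 ⟨i2, j2⟩ h2 h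
    simp only [Finset.mem_sigma, Finset.mem_range] at h1 h2 h
    have h3 : i1 = i2 := by
      have e1 := congrArg (fun z => z % (n+2)) h
      simp only [Nat.mul_add_mod] at e1
      rwa [Nat.mod_eq_of_lt h1.1, Nat.mod_eq_of_lt h2.1] at e1
    subst h3
    have h4 : (n + 2) * (2 * i1 + j1) = (n + 2) * (2 * i1 + j2) := by omega
    have h5 := Nat.eq_of_mul_eq_mul_left (by omega) h4
    have h6 : j1 = j2 := by omega
    rw [h6]
  · rintro ⟨i1, j1⟩ _
    simp [Polynomial.coeff_zero_eq_eval_zero]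
  · rw [← hP0, hP, map_sum, Finset.sum_sigma]
    refine Finset.sum_congr rfl fun i _ => ?_
    rw [map_sum]
    refine Finset.sum_congr rfl fun j _ => ?_
    rw [map_mul, subM_bas]
    congr 1
    simp [subM]
  · simp [hi, hj]

/-- joint descent polynomial of the factorisations of `τ` -/
noncomputable def Fpoly {m : ℕ} (τ : Equiv.Perm (Fin (m+1))) : MvPolynomial (Fin 2) ℚ :=
  ∑ π : Equiv.Perm (Fin (m+1)), X 0 ^ (desc π + 1) * X 1 ^ (desc (π⁻¹ * τ) + 1)

theorem desc_le {m : ℕ} (π : Equiv.Perm (Fin (m+1))) : desc π ≤ m := by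
  have := desc_add_asb π
  omega

theorem degreeOf_Fpoly {m : ℕ} (τ : Equiv.Perm (Fin (m+1))) (v : Fin 2) :
    degreeOf v (Fpoly τ) ≤ m + 1 := by
  unfold Fpoly
  refine (degreeOf_sum_le _ _ _).trans (Finset.sup_le fun π _ => ?_)
  have h1 := desc_le π
  have h2 := desc_le (π⁻¹ * τ)
  refine (degreeOf_mul_le _ _ _).trans ?_
  have h3 : ∀ (w : Fin 2) (a : ℕ), degreeOf v (X w ^ a : MvPolynomial (Fin 2) ℚ)
      ≤ if v = w then a else 0 := by
    intro w a
    refine (degreeOf_pow_le _ _ _).trans ?_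
    rw [degreeOf_X]
    split_ifs <;> simp
  refine (Nat.add_le_add (h3 0 _) (h3 1 _)).trans ?_
  fin_cases v <;> simp <;> omega

theorem Phi_Fpoly {m : ℕ} (τ : Equiv.Perm (Fin (m+1))) (x y : ℕ) :
    Phi (m+1) (m+1) x y (Fpoly τ) = Bn (m+1) (desc τ + 1) ((x : ℚ) * y) := by
  have h1 : ∀ (z a : ℕ), a ≤ m → Bn (m+1) (a+1) z = ((z + (m - a)).choose (m+1) : ℕ) := by
    intro z a ha
    rw [Bn_nat _ _ _ (by omega)]
    congr 3
    omega
  unfold Fpoly
  rw [map_sum, ← Nat.cast_mul, h1 _ _ (desc_le τ), ← sum_choose τ x y]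
  push_cast
  refine Finset.sum_congr rfl fun π _ => ?_
  have h2 : (X 0 ^ (desc π + 1) * X 1 ^ (desc (π⁻¹ * τ) + 1) : MvPolynomial (Fin 2) ℚ)
      = monomial (Finsupp.single 0 (desc π + 1) + Finsupp.single 1 (desc (π⁻¹ * τ) + 1)) 1 := by
    rw [X_pow_eq_monomial, X_pow_eq_monomial, monomial_mul, one_mul]
  rw [h2, Phi_monomial]
  simp only [Finsupp.coe_add, Pi.add_apply, Finsupp.single_apply, one_mul, if_true,
    show ((0 : Fin 2) = 1) = False by simp, show ((1 : Fin 2) = 0) = False by simp, if_false,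
    add_zero, zero_add]
  rw [h1 _ _ (desc_le π), h1 _ _ (desc_le _)]

theorem exists_gamma (m d : ℕ) : ∃ g : ℕ → ℕ → ℕ, ∀ τ : Equiv.Perm (Fin (m+1)), desc τ = d →
    Fpoly τ = ∑ i ∈ Finset.range (m + 1 + 2), ∑ j ∈ Finset.range (m + 1 + 2 - 2 * i),
      C ((g i j : ℕ) : ℚ) * bas i j (m + 1 + 1 - j - 2 * i) := by
  classical
  by_cases hd : ∃ τ0 : Equiv.Perm (Fin (m+1)), desc τ0 = d
  · obtain ⟨τ0, h0⟩ := hd
    have hdm : d ≤ m := h0 ▸ desc_le τ0
    obtain ⟨P, hP, hPhi⟩ := exists_cone m (d+1) (by omega) (by omega)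
    have hF : ∀ τ : Equiv.Perm (Fin (m+1)), desc τ = d → Fpoly τ = P := by
      intro τ hτ
      have hz : Fpoly τ - P = 0 := by
        apply eq_zero_of_Phi (m+1)
        · intro v
          exact (degreeOf_sub_le _ _ _).trans (max_le (degreeOf_Fpoly τ v) (hP.degreeOf_le v))
        · intro x y
          rw [map_sub, Phi_Fpoly, hPhi, hτ, sub_self]
      exact sub_eq_zero.1 hz
    obtain ⟨c, hc, hs, hPc⟩ := hP
    have hint := cone_integral (n := m+1) c P
      (∑ π : Equiv.Perm (Fin (m+1)), (Polynomial.X ^ (m+1+2)) ^ (desc π + 1) *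
        (Polynomial.X ^ (m+1+2+1)) ^ (desc (π⁻¹ * τ0) + 1)) hPc (by
        rw [← hF τ0 h0]
        unfold Fpoly subM
        rw [map_sum, Polynomial.map_sum]
        refine Finset.sum_congr rfl fun π _ => ?_
        simp)
    refine ⟨fun i j => (c i j).num.toNat, ?_⟩
    intro τ hτ
    rw [hF τ hτ, hPc]
    refine Finset.sum_congr rfl fun i hi => Finset.sum_congr rfl fun j hj => ?_
    rw [Finset.mem_range] at hi hj
    obtain ⟨z, hz⟩ := hint i hi j hj
    have hz' : (z : ℚ) = c i j := by simpa using hz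
    have hz0 : 0 ≤ z := by
      have := hc i j
      rw [← hz'] at this
      exact_mod_cast this
    have : (((c i j).num.toNat : ℕ) : ℚ) = c i j := by
      rw [← hz', Rat.num_intCast]
      have : ((z.toNat : ℕ) : ℤ) = z := Int.toNat_of_nonneg hz0
      exact_mod_cast this
    rw [this]
  · exact ⟨fun _ _ => 0, fun τ hτ => absurd ⟨τ, hτ⟩ hd⟩

theorem gessel (m : ℕ) : ∃ Γ : ℕ → ℕ → ℕ → ℕ, ∀ τ : Equiv.Perm (Fin (m+1)), ∀ s t : ℤ,
    ∑ π : Equiv.Perm (Fin (m+1)), s ^ (desc π + 1) * t ^ (desc (π⁻¹ * τ) + 1)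
      = ∑ i ∈ Finset.range (m + 1 + 2), ∑ j ∈ Finset.range (m + 1 + 2 - 2 * i),
        (Γ (desc τ) i j : ℤ) * (s * t) ^ i * (s + t) ^ j * (1 + s * t) ^ (m + 1 + 1 - j - 2 * i) := by
  choose Γ hΓ using exists_gamma m
  refine ⟨Γ, fun τ s t => ?_⟩
  have h := congrArg (eval (fun v : Fin 2 => if v = 0 then (s : ℚ) else (t : ℚ))) (hΓ (desc τ) τ rfl)
  unfold Fpoly bas at h
  simp only [map_sum, map_mul, map_pow, map_add, map_one, eval_X, eval_C, if_true,
    show ((1 : Fin 2) = 0) = False by simp, if_false] at h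
  have h2 : ((∑ π : Equiv.Perm (Fin (m+1)), s ^ (desc π + 1) * t ^ (desc (π⁻¹ * τ) + 1) : ℤ) : ℚ)
      = ((∑ i ∈ Finset.range (m + 1 + 2), ∑ j ∈ Finset.range (m + 1 + 2 - 2 * i),
        (Γ (desc τ) i j : ℤ) * (s * t) ^ i * (s + t) ^ j *
          (1 + s * t) ^ (m + 1 + 1 - j - 2 * i) : ℤ) : ℚ) := by
    push_cast
    rw [h]
    refine Finset.sum_congr rfl fun i _ => Finset.sum_congr rfl fun j _ => ?_
    ring
  exact_mod_cast h2

end Pool.Agent.H750R3
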