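import Mathlib

set_option autoImplicit false

namespace Pool.Agent.H750R3

open Complex Real
open scoped Nat

theorem hasSum_tele : HasSum (fun i : ℕ => (1:ℝ) / (((i:ℝ)+1)*((i:ℝ)+2))) 1 := by
  rw [hasSum_iff_tendsto_nat_of_nonneg (fun i => by positivity)]
  have h : ∀ n : ℕ, ∑ i ∈ Finset.range n, (1:ℝ) / (((i:ℝ)+1)*((i:ℝ)+2)) = 1 - 1/((n:ℝ)+1) := by
    intro n
    induction n with
    | zero => simp
    | succ n ih =>
      rw [Finset.sum_range_succ, ih]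
      push_cast
      field_simp
      ring
  simp only [h]
  have h2 := tendsto_one_div_add_atTop_nhds_zero_nat (𝕜 := ℝ)
  simpa using h2.const_sub 1

theorem term_bound (k : ℕ) (hk : 1 ≤ k) (x : ℝ) (i : ℕ) :
    1 / (√(x^2 + (π*(2*((i:ℝ)+1)+1))^2))^(k+1) ≤
      (1 / (√(x^2+π^2))^(k+1) * ((x^2+π^2)/(4*π^2*(((k+1)/2 : ℕ) : ℝ)))) *
        (1 / (((i:ℝ)+1)*((i:ℝ)+2))) := by
  have hpi := Real.pi_pos
  set u := x^2+π^2 with hu
  have hu0 : 0 < u := by positivity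
  set h := (k+1)/2 with hh
  have hh1 : 1 ≤ h := by omega
  have hh1' : (1:ℝ) ≤ h := by exact_mod_cast hh1
  set w : ℝ := 4*π^2*(((i:ℝ)+1)*((i:ℝ)+2))/u with hw
  have hw0 : 0 < w := by positivity
  have e1 : x^2 + (π*(2*((i:ℝ)+1)+1))^2 = u * (1 + w) := by
    rw [hw]; field_simp; rw [hu]; ring
  rw [e1, Real.sqrt_mul hu0.le, mul_pow]
  have h1 : (1 + (h:ℝ) * w) ≤ (√(1+w))^(k+1) := by
    calc (1 + (h:ℝ) * w) ≤ (1+w)^h := one_add_mul_le_pow (by linarith) h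
      _ = (√(1+w))^(2*h) := by rw [pow_mul, Real.sq_sqrt (by linarith)]
      _ ≤ (√(1+w))^(k+1) := by
          apply pow_le_pow_right₀ _ (by omega)
          rw [Real.one_le_sqrt]; linarith
  have h2 : (h:ℝ) * w ≤ (√(1+w))^(k+1) := by linarith
  have h3 : 0 < (h:ℝ) * w := by positivity
  have h4 : 1 / (√(1+w))^(k+1) ≤ 1 / ((h:ℝ) * w) := one_div_le_one_div_of_le h3 h2
  have h5 : 0 < 1 / (√u)^(k+1) := by positivity
  calc 1 / ((√u)^(k+1) * (√(1+w))^(k+1)) = 1 / (√u)^(k+1) * (1 / (√(1+w))^(k+1)) := by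
        rw [one_div_mul_one_div]
    _ ≤ 1 / (√u)^(k+1) * (1 / ((h:ℝ) * w)) := by gcongr
    _ = _ := by
        rw [hw]
        field_simp

theorem norm_aux (x : ℝ) (c : ℝ) : ‖(x:ℂ) - π * I * c‖ = √(x^2 + (π*c)^2) := by
  rw [Complex.norm_def, Complex.normSq_apply]
  congr 1
  simp
  ring

theorem norm_aux' (x : ℝ) (c : ℝ) : ‖(x:ℂ) + π * I * c‖ = √(x^2 + (π*c)^2) := by
  have := norm_aux x (-c)
  push_cast at this
  rw [mul_neg, sub_neg_eq_add] at this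
  rw [this]; congr 1; ring

theorem lip (k : ℕ) (hk : 1 ≤ k) (x : ℝ) (hx : 0 < x) (S : ℝ)
    (hS : HasSum (fun n : ℕ => (n:ℝ)^k * (-Real.exp (-x))^n) S) :
    ∃ E : ℂ, (S:ℂ) = k ! * (1/((x:ℂ) - π*I)^(k+1) + 1/((x:ℂ) + π*I)^(k+1) + E) ∧
     ‖E‖ ≤ 2 * (1 / (√(x^2+π^2))^(k+1) * ((x^2+π^2)/(4*π^2*(((k+1)/2 : ℕ) : ℝ)))) := by
  have hpi := Real.pi_pos
  have hpi' : (π:ℂ) ≠ 0 := by exact_mod_cast hpi.ne'
  set f : ℤ → ℂ := fun n => 1 / ((x:ℂ) - π*I*(2*(n:ℂ)+1))^(k+1) with hf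
  set C : ℝ := (1 / (√(x^2+π^2))^(k+1) * ((x^2+π^2)/(4*π^2*(((k+1)/2 : ℕ) : ℝ)))) with hC
  have hn1 : ∀ i : ℕ, ‖f ((i+1 : ℕ) : ℤ)‖ ≤ C * (1 / (((i:ℝ)+1)*((i:ℝ)+2))) := by
    intro i
    have h1 := term_bound k hk x i
    rw [hf]
    simp only
    rw [norm_div, norm_one, norm_pow]
    have h2 := norm_aux x (2*((i:ℝ)+1)+1)
    push_cast at h2 ⊢
    rw [h2]; exact h1
  have hn2 : ∀ i : ℕ, ‖f (-(((i+1 : ℕ) : ℤ) + 1))‖ ≤ C * (1 / (((i:ℝ)+1)*((i:ℝ)+2))) := by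
    intro i
    have h1 := term_bound k hk x i
    rw [hf]
    simp only
    rw [norm_div, norm_one, norm_pow]
    have h2 := norm_aux' x (2*((i:ℝ)+1)+1)
    have h3 : (x:ℂ) - π*I*(2*((-(((i+1 : ℕ) : ℤ) + 1) : ℤ):ℂ)+1) = (x:ℂ) + π * I * ((2*((i:ℝ)+1)+1 : ℝ) : ℂ) := by
      push_cast; ring
    rw [h3, h2]; exact h1
  have hts := hasSum_tele.mul_left C
  rw [mul_one] at hts
  have hs1 : Summable (fun i : ℕ => f ((i+1 : ℕ) : ℤ)) := Summable.of_norm_bounded hts.summable hn1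
  have hs2 : Summable (fun i : ℕ => f (-(((i+1 : ℕ) : ℤ) + 1))) := Summable.of_norm_bounded hts.summable hn2
  have hs1' : Summable (fun i : ℕ => f (i : ℤ)) := (summable_nat_add_iff 1).1 hs1
  have hs2' : Summable (fun i : ℕ => f (-((i : ℤ) + 1))) :=
    (summable_nat_add_iff (f := fun i : ℕ => f (-((i : ℤ) + 1))) 1).1 hs2
  have hb1 : ‖∑' i : ℕ, f ((i+1 : ℕ) : ℤ)‖ ≤ C := tsum_of_norm_bounded hts hn1
  have hb2 : ‖∑' i : ℕ, f (-(((i+1 : ℕ) : ℤ) + 1))‖ ≤ C := tsum_of_norm_bounded hts hn2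
  refine ⟨∑' i : ℕ, f ((i+1 : ℕ) : ℤ) + ∑' i : ℕ, f (-(((i+1 : ℕ) : ℤ) + 1)), ?_, ?_⟩
  · have h1 : ∑' n : ℤ, f n = 1/((x:ℂ) - π*I)^(k+1) + 1/((x:ℂ) + π*I)^(k+1) +
        (∑' i : ℕ, f ((i+1 : ℕ) : ℤ) + ∑' i : ℕ, f (-(((i+1 : ℕ) : ℤ) + 1))) := by
      rw [tsum_of_nat_of_neg_add_one hs1' hs2', hs1'.tsum_eq_zero_add, hs2'.tsum_eq_zero_add]
      have e1 : f ((0:ℕ):ℤ) = 1/((x:ℂ) - π*I)^(k+1) := by
        rw [hf]; simp
      have e2 : f (-(((0:ℕ):ℤ)+1)) = 1/((x:ℂ) + π*I)^(k+1) := by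
        rw [hf]; simp only; congr 2; push_cast; ring
      rw [e1, e2]; ring
    rw [← h1]
    -- the identity
    set z : UpperHalfPlane := ⟨1/2 + (x/(2*π) : ℝ) * I, by
      have e : (1/2 + ((x/(2*π) : ℝ) : ℂ) * I).im = x/(2*π) := by
        rw [Complex.add_im, Complex.im_ofReal_mul]
        simp
      rw [e]
      positivity⟩ with hz
    have h2 := EisensteinSeries.qExpansion_identity hk z
    have hzc : (z : ℂ) = 1/2 + (x/(2*π) : ℝ) * I := rfl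
    have h3 : Complex.exp (2 * π * I * z) = ((-Real.exp (-x) : ℝ) : ℂ) := by
      rw [hzc]
      have : 2 * (π:ℂ) * I * (1/2 + (x/(2*π) : ℝ) * I) = π * I + ((-x : ℝ) : ℂ) := by
        push_cast
        field_simp
        ring_nf
        rw [I_sq]
        ring
      rw [this, Complex.exp_add, Complex.exp_pi_mul_I]
      push_cast
      ring
    have h4 : ∀ n : ℤ, 1 / ((z:ℂ) + n)^(k+1) = (-2 * π * I)^(k+1) * f n := by
      intro n
      have : (z:ℂ) + n = ((x:ℂ) - π*I*(2*(n:ℂ)+1)) / (-2*π*I) := by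
        rw [hzc]
        have : (I:ℂ) ≠ 0 := I_ne_zero
        push_cast
        field_simp
        ring_nf
        rw [I_sq]
        ring
      rw [this, div_pow, hf]
      simp only
      rw [one_div_div, ← mul_one_div]
    simp only [h4, h3] at h2
    rw [tsum_mul_left] at h2
    have h5 : ∑' n : ℕ, (n:ℂ)^k * ((-Real.exp (-x) : ℝ) : ℂ)^n = (S:ℂ) := by
      have := (Complex.hasSum_ofReal.2 hS).tsum_eq
      rw [← this]
      congr 1
      funext n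
      push_cast
      ring
    rw [h5] at h2
    have h6 : ((-2:ℂ) * π * I)^(k+1) ≠ 0 := by
      apply pow_ne_zero
      exact mul_ne_zero (mul_ne_zero (by norm_num) hpi') I_ne_zero
    have h7 : (k ! : ℂ) ≠ 0 := by exact_mod_cast Nat.factorial_ne_zero k
    have h8 : ∑' n : ℤ, f n = (S:ℂ) / k ! := by
      apply mul_left_cancel₀ h6
      rw [h2]; ring
    rw [h8]; field_simp
  · refine (norm_add_le _ _).trans ?_
    linarith

end Pool.Agent.H750R3
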