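import Pool.Agent.H750R3.EvenOdd

set_option autoImplicit false

namespace Pool.Agent.H750R3

open Polynomial

theorem H_succ (m : ℕ) (hm : 1 ≤ m) (s : ℤˣ) :
    H (2*m) s = derivative (X * (X - 1) * H (2*m-1) s) := by
  apply Polynomial.eq_of_infinite_eval_eq
  refine (Set.Ioi_infinite (1:ℝ)).mono ?_
  intro y hy
  rw [Set.mem_Ioi] at hy
  rw [Set.mem_ofPred_eq]
  have hy0 : y ≠ 0 := by linarith
  set t : ℝ := 1 - 1/y with ht
  have h1y : 1/y < 1 := by rw [div_lt_one (by linarith)]; exact hy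
  have h1y0 : 0 < 1/y := by positivity
  have ht0 : 0 < t := by rw [ht]; linarith
  have ht1 : t < 1 := by rw [ht]; linarith
  have hty : y = 1 / (1 - t) := by rw [ht]; field_simp; ring
  have h1 := hasSum_H (2*m) s t (by rw [abs_of_pos ht0]; exact ht1)
  have h2 := hasSum_deriv_H (2*m) (by omega) s t (by rw [abs_of_pos ht0]; exact ht1)
  have e1 : (2*m+2)/2 = m+1 := by omega
  have e2 : (2*m+1)/2 = m := by omega
  rw [e1] at h1
  rw [e2] at h2
  have e3 : (fun x : ℕ => (x : ℝ) * ((x : ℝ) ^ (2*m) + ((s : ℤ) : ℝ) * (x : ℝ) ^ m) * t ^ x) =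
      (fun x : ℕ => ((x : ℝ) ^ (2*m+1) + ((s : ℤ) : ℝ) * (x : ℝ) ^ (m+1)) * t ^ x) := by
    funext x
    rw [pow_succ, pow_succ]; ring
  rw [e3] at h2
  have h3 := h1.unique h2
  rw [← hty] at h3
  have h4 : (1 - t) ≠ 0 := by linarith
  have h5 : t / (1-t)^2 ≠ 0 := div_ne_zero ht0.ne' (pow_ne_zero _ h4)
  have h6 : t / (1-t)^2 * (H (2*m) s).eval y =
      t / (1-t)^2 * (derivative (X * (X - 1) * H (2*m-1) s)).eval y := by
    linear_combination h3 / 2
  exact mul_left_cancel₀ h5 h6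

theorem splits_derivative (p : ℝ[X]) (hp : p.Splits) : (derivative p).Splits := by
  rw [splits_iff_card_roots] at hp ⊢
  have h1 := p.card_roots_le_derivative
  have h2 := (derivative p).card_roots'
  rcases Nat.eq_zero_or_pos p.natDegree with h | h
  · have h3 := natDegree_derivative_le p
    omega
  · have h3 := natDegree_derivative_le p
    omega

theorem H_splits (k : ℕ) (hk : 1 ≤ k) (s : ℤˣ) : (H k s).Splits := by
  rcases Nat.even_or_odd' k with ⟨m, h | h⟩
  · subst h
    have hm : 1 ≤ m := by omega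
    rw [H_succ m hm s]
    apply splits_derivative
    have h1 := even_splits m hm s
    have h2 : (X : ℝ[X]).Splits := Splits.X
    have h3 : (X - 1 : ℝ[X]).Splits := by
      have := Splits.X_sub_C (1:ℝ)
      rwa [map_one] at this
    exact (h2.mul h3).mul h1
  · have := even_splits (m+1) (by omega) s
    have e : 2*(m+1)-1 = k := by omega
    rwa [e] at this

theorem P_real (k : ℕ) (hk : 1 ≤ k) (s : ℤˣ) (z : ℂ) (hz : aeval z (P k s) = 0) : z.im = 0 := by
  by_cases h1 : z = 1
  · rw [h1]; simp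
  · have h2 := H_aeval k s z h1
    rw [hz, zero_div] at h2
    have h3 : ((H k s).map (algebraMap ℝ ℂ)).IsRoot (1 / (1 - z)) := by
      rw [IsRoot, eval_map_algebraMap]; exact h2
    obtain ⟨y, hy⟩ := (H_splits k hk s).mem_range_of_isRoot (H_ne_zero k hk s) h3
    have h4 : (1 - z) ≠ 0 := sub_ne_zero.2 (Ne.symm h1)
    have hy' : (y:ℂ) = 1 / (1 - z) := hy
    have h5 : (y:ℂ) ≠ 0 := by rw [hy']; exact one_div_ne_zero h4
    have h6 : z = ((1 - 1/y : ℝ) : ℂ) := by
      push_cast
      rw [hy']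
      field_simp
      ring
    rw [h6]
    exact Complex.ofReal_im _

end Pool.Agent.H750R3
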