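import Mathlib

set_option autoImplicit false

namespace Pool.Agent.H750R3

open Finset

/-- an alternating series dominated by its `j`-th term -/
theorem sign_of_dominant (b : ℕ → ℝ) (S : ℝ) (j : ℕ) (hb : ∀ x, 0 ≤ b x) (hj : 0 < b j)
    (hS : HasSum (fun x : ℕ => (-1 : ℝ) ^ x * b x) S)
    (hR : ∀ x, j ≤ x → b (x+1) ≤ 3/10 * b x) (hL : ∀ x, x < j → b x ≤ 3/10 * b (x+1)) :
    0 < (-1 : ℝ) ^ j * S := by
  have h1 : ∀ k, k ≤ j → ∑ x ∈ Finset.range k, b x ≤ 3/7 * b k := by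
    intro k
    induction k with
    | zero => intro _; simp [hb 0]
    | succ k ih =>
      intro hk
      rw [Finset.sum_range_succ]
      have h2 := ih (by omega)
      have h3 := hL k (by omega)
      linarith
  have h2 : ∀ i : ℕ, b (i + (j+1)) ≤ (3/10) ^ (i+1) * b j := by
    intro i
    induction i with
    | zero =>
      have := hR j le_rfl
      rw [zero_add, zero_add, pow_one]; exact this
    | succ i ih =>
      have h3 := hR (i + (j+1)) (by omega)
      have h4 : i + 1 + (j + 1) = i + (j + 1) + 1 := by omega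
      rw [h4, pow_succ]
      linarith
  have h3 := (hasSum_nat_add_iff' (j+1)).2 hS
  have h4 : HasSum (fun i : ℕ => (3/10 : ℝ) ^ (i+1) * b j) (3/7 * b j) := by
    have h5 := (hasSum_geometric_of_lt_one (r := (3/10 : ℝ)) (by norm_num) (by norm_num)).mul_left
      (3/10 * b j)
    have h6 : (fun i : ℕ => (3/10 : ℝ) ^ (i+1) * b j) = fun i : ℕ => 3/10 * b j * (3/10 : ℝ) ^ i := by
      funext i; rw [pow_succ]; ring
    have h7 : (3/7 : ℝ) * b j = 3/10 * b j * (1 - 3/10)⁻¹ := by norm_num; ring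
    rw [h6, h7]; exact h5
  have h5 : ‖S - ∑ x ∈ Finset.range (j+1), (-1 : ℝ) ^ x * b x‖ ≤ 3/7 * b j := by
    refine h3.norm_le_of_bounded h4 fun i => ?_
    rw [norm_mul, norm_pow, norm_neg, norm_one, one_pow, one_mul, Real.norm_of_nonneg (hb _)]
    exact h2 i
  have h6 : |∑ x ∈ Finset.range j, (-1 : ℝ) ^ x * b x| ≤ 3/7 * b j := by
    refine (Finset.abs_sum_le_sum_abs _ _).trans (le_trans (le_of_eq ?_) (h1 j le_rfl))
    refine Finset.sum_congr rfl fun x _ => ?_
    rw [abs_mul, abs_pow, abs_neg, abs_one, one_pow, one_mul, abs_of_nonneg (hb _)]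
  rw [Finset.sum_range_succ, Real.norm_eq_abs] at h5
  set A := ∑ x ∈ Finset.range j, (-1 : ℝ) ^ x * b x
  have h7 : (-1 : ℝ) ^ j * S = b j + (-1 : ℝ) ^ j * A + (-1 : ℝ) ^ j * (S - (A + (-1 : ℝ) ^ j * b j)) := by
    have : (-1 : ℝ) ^ j * (-1 : ℝ) ^ j = 1 := by rw [← mul_pow]; norm_num
    linear_combination (b j) * this
  have h8 : |(-1 : ℝ) ^ j * A| ≤ 3/7 * b j := by
    rw [abs_mul, abs_pow, abs_neg, abs_one, one_pow, one_mul]; exact h6
  have h9 : |(-1 : ℝ) ^ j * (S - (A + (-1 : ℝ) ^ j * b j))| ≤ 3/7 * b j := by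
    rw [abs_mul, abs_pow, abs_neg, abs_one, one_pow, one_mul]; exact h5
  rw [abs_le] at h8 h9
  rw [h7]
  linarith [h8.1, h9.1]

end Pool.Agent.H750R3
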