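import Pool.Agent.H750R3.SignCount

set_option autoImplicit false

namespace Pool.Agent.H750R3

open Finset

theorem hasSum_basic (m d : ℕ) (hd : d ≤ m) (t : ℝ) (ht : |t| < 1) :
    HasSum (fun x : ℕ => (((x + (m - d)).choose (m+1) : ℕ) : ℝ) * t ^ x)
      (t ^ (d+1) / (1 - t) ^ (m+2)) := by
  have h := hasSum_choose_mul_geometric_of_norm_lt_one (m+1) (r := t) (by simpa using ht)
  rw [← hasSum_nat_add_iff' (d+1)]
  have h1 : ∑ i ∈ Finset.range (d+1), (((i + (m - d)).choose (m+1) : ℕ) : ℝ) * t ^ i = 0 := by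
    apply Finset.sum_eq_zero
    intro i hi
    rw [Finset.mem_range] at hi
    rw [Nat.choose_eq_zero_of_lt (by omega)]
    simp
  rw [h1, sub_zero]
  have h2 := h.mul_left (t ^ (d+1))
  have hf : (fun x : ℕ => (((x + (d + 1) + (m - d)).choose (m+1) : ℕ) : ℝ) * t ^ (x + (d + 1)))
      = fun i : ℕ => t ^ (d + 1) * ((((i + (m + 1)).choose (m + 1) : ℕ) : ℝ) * t ^ i) := by
    funext x
    have : x + (d + 1) + (m - d) = x + (m + 1) := by omega
    rw [this, pow_add]
    ring
  have hv : t ^ (d + 1) / (1 - t) ^ (m + 2) = t ^ (d + 1) * (1 / (1 - t) ^ (m + 1 + 1)) := by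
    rw [mul_one_div]
  rw [hf, hv]
  exact h2

/-- descent polynomial over permutations of `Fin (m+1)` of sign `s` -/
noncomputable def P (m : ℕ) (s : ℤˣ) : Polynomial ℝ :=
  ∑ π ∈ (Finset.univ : Finset (Equiv.Perm (Fin (m+1)))).filter (fun π => Equiv.Perm.sign π = s),
    Polynomial.X ^ desc π

/-- homogenised version `∑ (y-1)^des y^(m-des)` -/
noncomputable def H (m : ℕ) (s : ℤˣ) : Polynomial ℝ :=
  ∑ π ∈ (Finset.univ : Finset (Equiv.Perm (Fin (m+1)))).filter (fun π => Equiv.Perm.sign π = s),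
    (Polynomial.X - 1) ^ desc π * Polynomial.X ^ (m - desc π)

theorem desc_le' {m : ℕ} (π : Equiv.Perm (Fin (m+1))) : desc π ≤ m := by
  have := desc_add_asb π
  omega

theorem hasSum_P (m : ℕ) (s : ℤˣ) (t : ℝ) (ht : |t| < 1) :
    HasSum (fun x : ℕ => ((x : ℝ) ^ (m+1) + ((s : ℤ) : ℝ) * (x : ℝ) ^ ((m + 2) / 2)) * t ^ x)
      (2 * (t * (P m s).eval t / (1 - t) ^ (m+2))) := by
  have h1 : ∀ x : ℕ, ((x : ℝ) ^ (m+1) + ((s : ℤ) : ℝ) * (x : ℝ) ^ ((m + 2) / 2)) * t ^ x =
      2 * ∑ π ∈ (Finset.univ : Finset (Equiv.Perm (Fin (m+1)))).filter (fun π => Equiv.Perm.sign π = s),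
        (((x + (m - desc π)).choose (m+1) : ℕ) : ℝ) * t ^ x := by
    intro x
    have h := worp (m := m) s x
    rw [← Finset.sum_mul, ← mul_assoc]
    congr 1
    have h' := congrArg (fun z : ℤ => (z : ℝ)) h
    push_cast at h'
    rw [← h']
  simp only [h1]
  apply HasSum.mul_left
  have h2 : t * (P m s).eval t / (1 - t) ^ (m+2) =
      ∑ π ∈ (Finset.univ : Finset (Equiv.Perm (Fin (m+1)))).filter (fun π => Equiv.Perm.sign π = s),
        t ^ (desc π + 1) / (1 - t) ^ (m+2) := by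
    unfold P
    rw [Polynomial.eval_finsetSum, Finset.mul_sum, Finset.sum_div]
    refine Finset.sum_congr rfl fun π _ => ?_
    rw [Polynomial.eval_pow, Polynomial.eval_X, pow_succ]
    ring
  rw [h2]
  exact hasSum_sum fun π _ => hasSum_basic m (desc π) (desc_le' π) t ht

theorem H_eval (m : ℕ) (s : ℤˣ) (t : ℝ) (ht : t ≠ 1) :
    (H m s).eval (1 / (1 - t)) = (P m s).eval t / (1 - t) ^ m := by
  unfold H P
  rw [Polynomial.eval_finsetSum, Polynomial.eval_finsetSum, Finset.sum_div]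
  refine Finset.sum_congr rfl fun π _ => ?_
  have h1 : (1 - t) ≠ 0 := sub_ne_zero.2 (Ne.symm ht)
  simp only [Polynomial.eval_mul, Polynomial.eval_pow, Polynomial.eval_sub, Polynomial.eval_X,
    Polynomial.eval_one]
  have h2 : (1 / (1 - t) - 1) = t / (1 - t) := by field_simp; ring
  rw [h2, div_pow, div_pow, one_pow, div_mul_div_comm, mul_one, ← pow_add]
  congr 2
  have := desc_le' π
  omega

theorem H_aeval (m : ℕ) (s : ℤˣ) (t : ℂ) (ht : t ≠ 1) :
    Polynomial.aeval (1 / (1 - t)) (H m s) = Polynomial.aeval t (P m s) / (1 - t) ^ m := by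
  unfold H P
  rw [map_sum, map_sum, Finset.sum_div]
  refine Finset.sum_congr rfl fun π _ => ?_
  have h1 : (1 - t) ≠ 0 := sub_ne_zero.2 (Ne.symm ht)
  simp only [map_mul, map_pow, map_sub, Polynomial.aeval_X, map_one]
  have h2 : (1 / (1 - t) - 1) = t / (1 - t) := by field_simp; ring
  rw [h2, div_pow, div_pow, one_pow, div_mul_div_comm, mul_one, ← pow_add]
  congr 2
  have := desc_le' π
  omega

theorem H_natDegree (m : ℕ) (s : ℤˣ) : (H m s).natDegree ≤ m := by
  unfold H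
  refine Polynomial.natDegree_sum_le_of_forall_le _ _ fun π _ => ?_
  have := desc_le' π
  refine (Polynomial.natDegree_mul_le).trans ?_
  have h1 : (Polynomial.X - 1 : Polynomial ℝ).natDegree ≤ 1 := by
    have : (Polynomial.X - 1 : Polynomial ℝ) = Polynomial.X - Polynomial.C 1 := by simp
    rw [this]; exact (Polynomial.natDegree_X_sub_C 1).le
  have h2 := Polynomial.natDegree_pow_le (p := (Polynomial.X - 1 : Polynomial ℝ)) (n := desc π)
  have h3 := Polynomial.natDegree_X_pow_le (R := ℝ) (m - desc π)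
  have h4 : desc π * (Polynomial.X - 1 : Polynomial ℝ).natDegree ≤ desc π * 1 :=
    Nat.mul_le_mul_left _ h1
  omega

end Pool.Agent.H750R3
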