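import Pool.Agent.H750R3.RegA
import Pool.Agent.H750R3.Series

set_option autoImplicit false

namespace Pool.Agent.H750R3

open Finset

theorem even_sign (m j : ℕ) (s : ℤˣ) (hm : 1 ≤ m) (q S : ℝ) (hq : 0 < q) (hq1 : q < 1)
    (hS : HasSum (fun x : ℕ => ((x : ℝ) ^ (2*m) + ((s : ℤ) : ℝ) * (x : ℝ) ^ m) * (-q) ^ x) S)
    (h : 0 < (-1 : ℝ) ^ j * S) :
    0 < (-1 : ℝ) ^ (j+1) * (H (2*m-1) s).eval (1 / (1 + q)) := by
  have h1 := hasSum_P (2*m-1) s (-q) (by rw [abs_neg, abs_of_pos hq]; exact hq1)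
  have e1 : 2 * m - 1 + 1 = 2 * m := by omega
  have e2 : (2 * m - 1 + 2) / 2 = m := by omega
  rw [e1, e2] at h1
  have h2 := hS.unique h1
  rw [h2] at h
  have h3 := H_eval (2*m-1) s (-q) (by linarith)
  rw [sub_neg_eq_add] at h3 h
  rw [h3]
  have hp : 0 < (1 + q) ^ (2 * m - 1 + 2) := by positivity
  have h4 : (-1 : ℝ) ^ j * (2 * (-q * Polynomial.eval (-q) (P (2 * m - 1) s) / (1 + q) ^ (2 * m - 1 + 2)))
      = (2 * q / (1 + q) ^ 2) * ((-1) ^ (j+1) * (Polynomial.eval (-q) (P (2 * m - 1) s) / (1 + q) ^ (2 * m - 1))) := by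
    rw [pow_succ (-1 : ℝ) j, pow_add (1 + q) (2*m-1) 2]
    field_simp
  rw [h4] at h
  exact (pos_iff_pos_of_mul_pos h).1 (by positivity)

theorem wbound (j m : ℕ) (hj : 2 ≤ j) (hm : 2 * j^2 ≤ m) :
    (((j:ℝ)^2 - 1)/(j:ℝ)^2)^m ≤ 17/125 := by
  have hj' : (2:ℝ) ≤ j := by exact_mod_cast hj
  have hj2 : (0:ℝ) < (j:ℝ)^2 := by positivity
  have h1 : ((j:ℝ)^2 - 1)/(j:ℝ)^2 ≤ Real.exp (-(1/(j:ℝ)^2)) := by
    have := Real.one_sub_le_exp_neg (1/(j:ℝ)^2)
    have h2 : ((j:ℝ)^2 - 1)/(j:ℝ)^2 = 1 - 1/(j:ℝ)^2 := by field_simp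
    rw [h2]; exact this
  have h0 : 0 ≤ ((j:ℝ)^2 - 1)/(j:ℝ)^2 := by
    apply div_nonneg _ hj2.le
    nlinarith
  have h3 := pow_le_pow_left₀ h0 h1 m
  rw [← Real.exp_nat_mul] at h3
  have h4 : (m:ℝ) * -(1/(j:ℝ)^2) ≤ -2 := by
    have : (2:ℝ) * (j:ℝ)^2 ≤ m := by exact_mod_cast hm
    have h5 : (2:ℝ) ≤ m * (1/(j:ℝ)^2) := by
      rw [mul_one_div, le_div_iff₀ hj2]; exact this
    linarith
  have h5 := Real.exp_le_exp.2 h4
  have h6 : Real.exp (-2) ≤ 17/125 := by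
    have h7 : Real.exp (-2) = (Real.exp 1)⁻¹ ^ 2 := by
      rw [← Real.exp_neg, ← Real.exp_nat_mul]; norm_num
    have h8 := Real.exp_one_gt_d9
    have h9 : (Real.exp 1)⁻¹ ≤ (2.718:ℝ)⁻¹ := by
      apply inv_anti₀ (by norm_num)
      linarith
    rw [h7]
    have h10 := pow_le_pow_left₀ (by positivity) h9 2
    refine h10.trans ?_
    norm_num
  linarith

theorem unit_cases (s : ℤˣ) : ((s : ℤ) : ℝ) = 1 ∨ ((s : ℤ) : ℝ) = -1 := by
  rcases Int.units_eq_one_or s with h | h <;> simp [h]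

theorem regA_step (m j : ℕ) (s : ℤˣ) (hj : 2 ≤ j) (hm : 2 * j^2 ≤ m) (S : ℝ)
    (hS : HasSum (fun x : ℕ => ((x : ℝ) ^ (2*m) + ((s : ℤ) : ℝ) * (x : ℝ) ^ m) *
      (-((((j:ℝ) - 1)/((j:ℝ)+1))^m)) ^ x) S) :
    0 < (-1 : ℝ) ^ j * S := by
  set q : ℝ := (((j:ℝ) - 1)/((j:ℝ)+1))^m with hq
  have hj' : (2:ℝ) ≤ j := by exact_mod_cast hj
  have hm1 : 8 ≤ m := by nlinarith
  have hq0 : 0 < q := by
    rw [hq]
    apply pow_pos
    apply div_pos <;> linarith
  have hw := wbound j m hj hm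
  have hx2 : ∀ x : ℝ, x ^ (2*m) = (x^m)^2 := by
    intro x; rw [← pow_mul, mul_comm m 2]
  have ha : ∀ x : ℕ, x = 0 ∨ (1:ℝ) ≤ (x:ℝ)^m := by
    intro x
    rcases Nat.eq_zero_or_pos x with h | h
    · exact Or.inl h
    · right
      have : (1:ℝ) ≤ x := by exact_mod_cast h
      exact one_le_pow₀ this
  have ha0 : ((0:ℕ):ℝ)^m = 0 := by
    rw [Nat.cast_zero, zero_pow (by omega)]
  refine sign_of_dominant (fun x : ℕ => ((x : ℝ) ^ (2*m) + ((s : ℤ) : ℝ) * (x : ℝ) ^ m) * q ^ x) S j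
    ?_ ?_ ?_ ?_ ?_
  · intro x
    apply mul_nonneg _ (by positivity)
    rw [hx2]
    have h0 : 0 ≤ (x:ℝ)^m := by positivity
    rcases ha x with h | h
    · subst h; rw [ha0]; simp
    · rcases unit_cases s with hs | hs <;> rw [hs] <;> nlinarith
  · apply mul_pos _ (by positivity)
    rw [hx2]
    have h0 : (2:ℝ) ≤ (j:ℝ)^m := by
      calc (2:ℝ) ≤ 2^m := by
            calc (2:ℝ) = 2^1 := by norm_num
              _ ≤ 2^m := pow_le_pow_right₀ (by norm_num) (by omega)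
        _ ≤ _ := pow_le_pow_left₀ (by norm_num) hj' m
    rcases unit_cases s with hs | hs <;> rw [hs] <;> nlinarith
  · convert hS using 2 with x
    rw [neg_pow q x]
    ring
  · intro x hx
    have hx' : (j:ℝ) ≤ x := by exact_mod_cast hx
    have hbase : ((x:ℝ)+1)^2 * (((j:ℝ) - 1)/((j:ℝ)+1)) ≤ (x:ℝ)^2 * (((j:ℝ)^2 - 1)/(j:ℝ)^2) := by
      rw [mul_div_assoc', mul_div_assoc', div_le_div_iff₀ (by linarith) (by positivity)]
      have h1 : ((x:ℝ)+1) * j ≤ (j+1) * x := by nlinarith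
      have h2 : (((x:ℝ)+1) * j)^2 ≤ ((j+1) * x)^2 := pow_le_pow_left₀ (by positivity) h1 2
      have h3 : 0 ≤ (j:ℝ) - 1 := by linarith
      nlinarith [mul_le_mul_of_nonneg_left h2 h3]
    have hb0 : 0 ≤ ((x:ℝ)+1)^2 * (((j:ℝ) - 1)/((j:ℝ)+1)) := by
      apply mul_nonneg (by positivity)
      apply div_nonneg <;> linarith
    have h1 := pow_le_pow_left₀ hb0 hbase m
    rw [mul_pow, mul_pow, ← hq, ← pow_mul, ← pow_mul, hx2, hx2] at h1
    have hx0 : (0:ℝ) ≤ (x:ℝ)^m := by positivity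
    have h2 : (((x:ℝ)+1)^m)^2 * q ≤ 17/125 * ((x:ℝ)^m)^2 := by
      have := mul_le_mul_of_nonneg_left hw (by positivity : (0:ℝ) ≤ ((x:ℝ)^m)^2)
      linarith
    have h3 : (2:ℝ) ≤ (x:ℝ)^m := by
      calc (2:ℝ) ≤ 2^m := by
            calc (2:ℝ) = 2^1 := by norm_num
              _ ≤ 2^m := pow_le_pow_right₀ (by norm_num) (by omega)
        _ ≤ _ := pow_le_pow_left₀ (by norm_num) (by linarith) m
    have h4 : (x:ℝ)^m ≤ ((x:ℝ)+1)^m := pow_le_pow_left₀ (by positivity) (by linarith) m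
    rw [pow_succ q x]
    push_cast
    rw [hx2, hx2]
    set a := (x:ℝ)^m
    set c := ((x:ℝ)+1)^m
    have key : (c^2 + ((s:ℤ):ℝ) * c) * q ≤ 3/10 * (a^2 + ((s:ℤ):ℝ) * a) := by
      rcases unit_cases s with hs | hs <;> rw [hs]
      · have hc : 0 < c := by linarith
        have h5 : c * q * c ≤ 17/125 * a * c := by nlinarith
        have h6 : c * q ≤ 17/125 * a := le_of_mul_le_mul_right h5 hc
        nlinarith
      · have hc : 0 < c := by linarith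
        have h5 : 0 < c * q := mul_pos hc hq0
        nlinarith
    have hqx : 0 ≤ q^x := by positivity
    nlinarith [mul_le_mul_of_nonneg_right key hqx]
  · intro x hx
    have hx' : (x:ℝ) + 1 ≤ j := by exact_mod_cast hx
    have hx00 : (0:ℝ) ≤ x := by positivity
    have hbase : (x:ℝ)^2 ≤ (((j:ℝ)^2 - 1)/(j:ℝ)^2) * (((x:ℝ)+1)^2 * (((j:ℝ) - 1)/((j:ℝ)+1))) := by
      have e : (((j:ℝ)^2 - 1)/(j:ℝ)^2) * (((x:ℝ)+1)^2 * (((j:ℝ) - 1)/((j:ℝ)+1)))
          = (((x:ℝ)+1) * (j - 1))^2/(j:ℝ)^2 := by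
        have : (j:ℝ) + 1 ≠ 0 := by linarith
        have : (j:ℝ) ≠ 0 := by linarith
        field_simp
        ring
      rw [e, le_div_iff₀ (by positivity), ← mul_pow]
      apply pow_le_pow_left₀ (by positivity)
      nlinarith
    have h1 := pow_le_pow_left₀ (by positivity) hbase m
    rw [mul_pow (((j:ℝ)^2 - 1)/(j:ℝ)^2), mul_pow (((x:ℝ)+1)^2), ← hq, ← pow_mul, ← pow_mul, hx2, hx2] at h1
    have hc2 : (0:ℝ) ≤ (((x:ℝ)+1)^m)^2 * q := by positivity
    have h2 : ((x:ℝ)^m)^2 ≤ 17/125 * ((((x:ℝ)+1)^m)^2 * q) := by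
      have := mul_le_mul_of_nonneg_right hw hc2
      linarith
    have h4 : (x:ℝ)^m ≤ ((x:ℝ)+1)^m := pow_le_pow_left₀ (by positivity) (by linarith) m
    have h5 : (1:ℝ) ≤ ((x:ℝ)+1)^m := one_le_pow₀ (by linarith)
    have hxm : (x:ℝ)^m = 0 ∨ (1:ℝ) ≤ (x:ℝ)^m := by
      rcases ha x with h | h
      · left; subst h; exact ha0
      · right; exact h
    rw [pow_succ q x]
    push_cast
    rw [hx2, hx2]
    set a := (x:ℝ)^m
    set c := ((x:ℝ)+1)^m
    have key : (a^2 + ((s:ℤ):ℝ) * a) ≤ 3/10 * ((c^2 + ((s:ℤ):ℝ) * c) * q) := by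
      have hcq : 0 < c * q := mul_pos (by linarith) hq0
      rcases hxm with h | h
      · rw [h]
        rcases unit_cases s with hs | hs <;> rw [hs]
        · nlinarith
        · have : 0 ≤ (c^2 - c) * q := by
            apply mul_nonneg _ hq0.le
            nlinarith
          nlinarith
      · rcases unit_cases s with hs | hs <;> rw [hs]
        · nlinarith
        · have hc : 0 < c := by linarith
          -- (a^2 - a) * c ≤ a^2 * (c - 1) ≤ 17/125 * c^2*q*(c-1)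
          have h6 : (a^2 - a) * c ≤ a^2 * (c - 1) := by nlinarith
          have h7 : a^2 * (c - 1) ≤ 17/125 * (c^2*q) * (c-1) := by
            apply mul_le_mul_of_nonneg_right h2 (by linarith)
          have h8 : (a^2 - a) * c ≤ (17/125 * ((c^2 - c) * q)) * c := by
            nlinarith
          have h9 := le_of_mul_le_mul_right h8 hc
          have h10 : 0 ≤ (c^2 - c) * q := by
            apply mul_nonneg _ hq0.le
            nlinarith
          nlinarith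
    have hqx : 0 ≤ q^x := by positivity
    nlinarith [mul_le_mul_of_nonneg_right key hqx]

theorem regA (m j : ℕ) (s : ℤˣ) (hj : 2 ≤ j) (hm : 2 * j^2 ≤ m) :
    0 < (-1 : ℝ) ^ (j+1) * (H (2*m-1) s).eval (1 / (1 + (((j:ℝ) - 1)/((j:ℝ)+1))^m)) := by
  have hj' : (2:ℝ) ≤ j := by exact_mod_cast hj
  have hm1 : 8 ≤ m := by nlinarith
  set q : ℝ := (((j:ℝ) - 1)/((j:ℝ)+1))^m with hq
  have hq0 : 0 < q := by
    rw [hq]
    apply pow_pos
    apply div_pos <;> linarith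
  have hq1 : q < 1 := by
    rw [hq]
    apply pow_lt_one₀ _ _ (by omega)
    · apply div_nonneg <;> linarith
    · rw [div_lt_one (by linarith)]; linarith
  have h1 := hasSum_P (2*m-1) s (-q) (by rw [abs_neg, abs_of_pos hq0]; exact hq1)
  have e1 : 2 * m - 1 + 1 = 2 * m := by omega
  have e2 : (2 * m - 1 + 2) / 2 = m := by omega
  rw [e1, e2] at h1
  exact even_sign m j s (by omega) q _ hq0 hq1 h1 (regA_step m j s hj hm _ h1)

end Pool.Agent.H750R3
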