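import Pool.Agent.H750R3.Lip
import Pool.Agent.H750R3.RegA2

set_option autoImplicit false

namespace Pool.Agent.H750R3

open Complex Real
open scoped Nat

/-- the numeric condition used in the main range -/
def CondC (m : ℕ) (u : ℝ) : Prop :=
  (m ! : ℝ) * (√u)^m * (1 + u/(2*π^2*m)) < ((2*m)! : ℝ) * (1 - u/(4*π^2*m))

theorem regB_core (m j : ℕ) (s : ℤˣ) (hm : 1 ≤ m) (x θ : ℝ) (hx : 0 < x)
    (hsin : 0 < Real.sin θ) (hxθ : x = π * Real.cos θ / Real.sin θ)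
    (hθ : (2*(m:ℝ)+1) * θ = j * π) (S : ℝ)
    (hS : HasSum (fun n : ℕ => ((n : ℝ) ^ (2*m) + ((s : ℤ) : ℝ) * (n : ℝ) ^ m) *
      (-Real.exp (-x)) ^ n) S)
    (hC : CondC m (x^2 + π^2)) : 0 < (-1 : ℝ) ^ j * S := by
  have hpi := Real.pi_pos
  have hq : ‖(-Real.exp (-x))‖ < 1 := by
    rw [norm_neg, Real.norm_eq_abs, abs_of_pos (Real.exp_pos _), Real.exp_lt_one_iff]
    linarith
  obtain ⟨S1, hS1⟩ : ∃ S1, HasSum (fun n : ℕ => (n:ℝ)^(2*m) * (-Real.exp (-x))^n) S1 :=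
    summable_pow_mul_geometric_of_norm_lt_one (2*m) hq
  obtain ⟨S2, hS2⟩ : ∃ S2, HasSum (fun n : ℕ => (n:ℝ)^m * (-Real.exp (-x))^n) S2 :=
    summable_pow_mul_geometric_of_norm_lt_one m hq
  have hSS : S = S1 + ((s : ℤ) : ℝ) * S2 := by
    refine hS.unique ?_
    convert hS1.add (hS2.mul_left ((s : ℤ) : ℝ)) using 2 with n
    ring
  obtain ⟨E1, hE1, hE1n⟩ := lip (2*m) (by omega) x hx S1 hS1
  obtain ⟨E2, hE2, hE2n⟩ := lip m hm x hx S2 hS2
  set u := x^2 + π^2 with hu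
  have hu0 : 0 < u := by positivity
  set r := √u with hr
  have hr0 : 0 < r := Real.sqrt_pos.2 hu0
  have hrr : r = π / Real.sin θ := by
    rw [hr, hu, hxθ]
    have : (π * Real.cos θ / Real.sin θ)^2 + π^2 = (π / Real.sin θ)^2 := by
      have h1 := Real.sin_sq_add_cos_sq θ
      field_simp
      linarith
    rw [this, Real.sqrt_sq (by positivity)]
  have hn1 : ‖(x:ℂ) - π * I‖ = r := by
    have := norm_aux x 1
    rw [mul_one, ofReal_one, mul_one] at this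
    rw [this]
  have hn2 : ‖(x:ℂ) + π * I‖ = r := by
    have := norm_aux' x 1
    rw [mul_one, ofReal_one, mul_one] at this
    rw [this]
  have hxr : x = r * Real.cos θ := by rw [hrr, hxθ]; ring
  have hpr : π = r * Real.sin θ := by rw [hrr]; field_simp
  have he1 : (x:ℂ) - π * I = r * Complex.exp ((-θ : ℝ) * I) := by
    rw [Complex.exp_mul_I, ← ofReal_cos, ← ofReal_sin, Real.cos_neg, Real.sin_neg]
    have h1 := congrArg (fun z : ℝ => (z:ℂ)) hxr
    have h2 := congrArg (fun z : ℝ => (z:ℂ)) hpr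
    simp only [ofReal_mul] at h1 h2
    rw [h1, h2]
    push_cast; ring
  have he2 : (x:ℂ) + π * I = r * Complex.exp ((θ : ℝ) * I) := by
    rw [Complex.exp_mul_I, ← ofReal_cos, ← ofReal_sin]
    have h1 := congrArg (fun z : ℝ => (z:ℂ)) hxr
    have h2 := congrArg (fun z : ℝ => (z:ℂ)) hpr
    simp only [ofReal_mul] at h1 h2
    rw [h1, h2]
    ring
  have hneg : (-1 : ℂ)^j * (-1 : ℂ)^j = 1 := by rw [← mul_pow]; norm_num
  have hθ' : ((2*m+1 : ℕ) : ℝ) * θ = j * π := by push_cast; exact hθ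
  have hp1 : ((x:ℂ) - π * I)^(2*m+1) = r^(2*m+1) * (-1)^j := by
    rw [he1, mul_pow, ← Complex.exp_nat_mul]
    congr 1
    have : ((2*m+1 : ℕ) : ℂ) * ((-θ : ℝ) * I) = (j:ℂ) * (-(π * I)) := by
      have h1 := congrArg (fun z : ℝ => (z:ℂ)) hθ'
      simp only [ofReal_mul, ofReal_natCast] at h1
      push_cast at h1 ⊢
      linear_combination (-I) * h1
    rw [this, Complex.exp_nat_mul, Complex.exp_neg, Complex.exp_pi_mul_I]
    norm_num
  have hp2 : ((x:ℂ) + π * I)^(2*m+1) = r^(2*m+1) * (-1)^j := by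
    rw [he2, mul_pow, ← Complex.exp_nat_mul]
    congr 1
    have : ((2*m+1 : ℕ) : ℂ) * ((θ : ℝ) * I) = (j:ℂ) * (π * I) := by
      have h1 := congrArg (fun z : ℝ => (z:ℂ)) hθ'
      simp only [ofReal_mul, ofReal_natCast] at h1
      push_cast at h1 ⊢
      linear_combination (I) * h1
    rw [this, Complex.exp_nat_mul, Complex.exp_pi_mul_I]
  -- bound for S2
  have hS2b : |S2| ≤ (m ! : ℝ) * (2 / r^(m+1) + 2 / r^(m+1) * (u/(2*π^2*m))) := by
    have h1 : |S2| = ‖(S2:ℂ)‖ := by rw [Complex.norm_real, Real.norm_eq_abs]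
    rw [h1, hE2, norm_mul, Complex.norm_natCast]
    apply mul_le_mul_of_nonneg_left _ (by positivity)
    refine (norm_add_le _ _).trans ?_
    have h2 := norm_add_le (1 / ((x:ℂ) - π * I)^(m+1)) (1 / ((x:ℂ) + π * I)^(m+1))
    rw [norm_div, norm_div, norm_pow, norm_pow, hn1, hn2, norm_one] at h2
    have h3 : u/(4*π^2*(((m+1)/2 : ℕ) : ℝ)) ≤ u/(2*π^2*m) := by
      apply div_le_div_of_nonneg_left hu0.le
      · have : (0:ℝ) < m := by exact_mod_cast hm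
        positivity
      · have h4 : m ≤ 2 * ((m+1)/2) := by omega
        have h5 : (m:ℝ) ≤ 2 * (((m+1)/2 : ℕ) : ℝ) := by exact_mod_cast h4
        have h6 : 0 < π^2 := by positivity
        nlinarith
    have h4 : 0 < 1 / r^(m+1) := by positivity
    have h5 : 1 / r^(m+1) * (u/(4*π^2*(((m+1)/2 : ℕ) : ℝ))) ≤ 1 / r^(m+1) * (u/(2*π^2*m)) :=
      mul_le_mul_of_nonneg_left h3 h4.le
    have h6 : 2 / r^(m+1) = 2 * (1 / r^(m+1)) := by ring
    rw [h6]
    linarith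
  -- bound for S1
  have hS1b : |(-1:ℝ)^j * S1 - ((2*m)! : ℝ) * (2 / r^(2*m+1))| ≤
      ((2*m)! : ℝ) * (2 / r^(2*m+1) * (u/(4*π^2*m))) := by
    have h1 : |(-1:ℝ)^j * S1 - ((2*m)! : ℝ) * (2 / r^(2*m+1))| =
        ‖(((-1:ℝ)^j * S1 - ((2*m)! : ℝ) * (2 / r^(2*m+1)) : ℝ) : ℂ)‖ := by
      rw [Complex.norm_real, Real.norm_eq_abs]
    have hrc : (r:ℂ)^(2*m+1) ≠ 0 := by
      apply pow_ne_zero; exact_mod_cast hr0.ne'
    have hnz : (-1:ℂ)^j ≠ 0 := by apply pow_ne_zero; norm_num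
    have h2 : ((((-1:ℝ)^j * S1 - ((2*m)! : ℝ) * (2 / r^(2*m+1)) : ℝ)) : ℂ) =
        ((2*m)! : ℂ) * ((-1)^j * E1) := by
      push_cast
      rw [hE1, hp1, hp2]
      have e1 : (1:ℂ) / ((r:ℂ)^(2*m+1) * (-1)^j) = (-1)^j / (r:ℂ)^(2*m+1) := by
        rw [div_eq_div_iff (mul_ne_zero hrc hnz) hrc]
        linear_combination (-(r:ℂ)^(2*m+1)) * hneg
      rw [e1]
      linear_combination (2 * ((2*m)! : ℂ) / (r:ℂ)^(2*m+1)) * hneg
    rw [h1, h2, norm_mul, norm_mul, norm_pow, norm_neg, norm_one, one_pow, one_mul,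
      Complex.norm_natCast]
    apply mul_le_mul_of_nonneg_left _ (by positivity)
    refine hE1n.trans (le_of_eq ?_)
    have h3 : (2*m+1)/2 = m := by omega
    rw [h3]; ring
  unfold CondC at hC
  have h1 : 0 < 2 / r^(2*m+1) := by positivity
  have h2 := mul_lt_mul_of_pos_left hC h1
  have h3 : 2 / r^(2*m+1) * ((m ! : ℝ) * r^m * (1 + u/(2*π^2*m))) =
      (m ! : ℝ) * (2 / r^(m+1) + 2 / r^(m+1) * (u/(2*π^2*m))) := by
    have h4 : 2 / r^(m+1) = 2 / r^(2*m+1) * r^m := by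
      rw [div_mul_eq_mul_div, div_eq_div_iff (by positivity) (by positivity)]
      ring
    rw [h4]; ring
  rw [h3] at h2
  have h4 : |(-1:ℝ)^j * (((s : ℤ) : ℝ) * S2)| = |S2| := by
    rw [abs_mul, abs_pow, abs_neg, abs_one, one_pow, one_mul, abs_mul]
    rcases unit_cases s with h | h <;> rw [h] <;> simp
  have h5 := neg_abs_le ((-1:ℝ)^j * (((s : ℤ) : ℝ) * S2))
  rw [h4] at h5
  have h6 := (abs_le.1 hS1b).1
  rw [hSS, mul_add]
  linarith

end Pool.Agent.H750R3
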