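import Pool.Agent.H750R3.Series

set_option autoImplicit false

namespace Pool.Agent.H750R3

open Polynomial

theorem splits_of_alternating (p : ℝ[X]) (M : ℕ) (b : ℕ → ℝ) (hp : p ≠ 0)
    (hdeg : p.natDegree ≤ M) (hb : ∀ i, i < M → b i < b (i+1))
    (hs : ∀ i, i < M → p.eval (b i) * p.eval (b (i+1)) ≤ 0)
    (hne : ∀ i, 0 < i → i < M → p.eval (b i) ≠ 0) : p.Splits := by
  have hroot : ∀ i : ℕ, ∃ c : ℝ, i < M → (b i ≤ c ∧ c ≤ b (i+1) ∧ p.eval c = 0) := by
    intro i
    by_cases hi : i < M
    · have hlt := hb i hi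
      have h := hs i hi
      have hcont : ContinuousOn (fun x => p.eval x) (Set.Icc (b i) (b (i+1))) :=
        p.continuous.continuousOn
      rcases le_total (p.eval (b i)) 0 with h0 | h0
      · by_cases h1 : 0 ≤ p.eval (b (i+1))
        · obtain ⟨c, hc, hc2⟩ := intermediate_value_Icc hlt.le hcont ⟨h0, h1⟩
          exact ⟨c, fun _ => ⟨hc.1, hc.2, hc2⟩⟩
        · rw [not_le] at h1
          have : p.eval (b i) = 0 := by nlinarith
          exact ⟨b i, fun _ => ⟨le_rfl, hlt.le, this⟩⟩
      · by_cases h1 : p.eval (b (i+1)) ≤ 0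
        · obtain ⟨c, hc, hc2⟩ := intermediate_value_Icc' hlt.le hcont ⟨h1, h0⟩
          exact ⟨c, fun _ => ⟨hc.1, hc.2, hc2⟩⟩
        · rw [not_le] at h1
          have : p.eval (b i) = 0 := by nlinarith
          exact ⟨b i, fun _ => ⟨le_rfl, hlt.le, this⟩⟩
    · exact ⟨0, fun h => absurd h hi⟩
  choose c hc using hroot
  have hbm : ∀ i k : ℕ, i + k ≤ M → b i ≤ b (i+k) := by
    intro i k
    induction k with
    | zero => intro _; exact le_rfl
    | succ k ih =>
      intro h
      exact (ih (by omega)).trans (hb (i+k) (by omega)).le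
  have hcm : ∀ i j : ℕ, i < j → j < M → c i < c j := by
    intro i j hij hj
    obtain ⟨h1, h2, h3⟩ := hc i (by omega)
    obtain ⟨h4, h5, h6⟩ := hc j hj
    have h7 : c i ≠ b (i+1) := by
      intro h
      apply hne (i+1) (by omega) (by omega)
      rw [← h]; exact h3
    have h8 := hbm (i+1) (j-(i+1)) (by omega)
    have h9 : i + 1 + (j-(i+1)) = j := by omega
    rw [h9] at h8
    have h10 := lt_of_le_of_ne h2 h7
    linarith
  have hinj : Set.InjOn c (Finset.range M : Set ℕ) := by
    intro i hi j hj hij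
    simp only [Finset.coe_range, Set.mem_Iio] at hi hj
    rcases lt_trichotomy i j with h | h | h
    · exact absurd hij (hcm i j h hj).ne
    · exact h
    · exact absurd hij.symm (hcm j i h hi).ne
  have hsub : (Finset.range M).image c ⊆ p.roots.toFinset := by
    intro x hx
    rw [Finset.mem_image] at hx
    obtain ⟨i, hi, rfl⟩ := hx
    rw [Finset.mem_range] at hi
    rw [Multiset.mem_toFinset, mem_roots hp]
    exact (hc i hi).2.2
  have hcard : M ≤ p.roots.card := by
    calc M = (Finset.range M).card := (Finset.card_range M).symm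
      _ = ((Finset.range M).image c).card := (Finset.card_image_of_injOn hinj).symm
      _ ≤ p.roots.toFinset.card := Finset.card_le_card hsub
      _ ≤ p.roots.card := Multiset.toFinset_card_le _
  rw [splits_iff_card_roots]
  have := p.card_roots'
  omega

theorem desc_rev {m : ℕ} (π : Equiv.Perm (Fin (m+1))) :
    desc (π * Fin.revPerm) + desc π = m := by
  rw [desc_eq, desc_eq]
  have h1 : (Finset.univ.filter (fun l : Fin m => (π * Fin.revPerm : Equiv.Perm (Fin (m+1))) l.succ <
      (π * Fin.revPerm : Equiv.Perm (Fin (m+1))) l.castSucc)).card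
      = (Finset.univ.filter (fun l : Fin m => ¬ (π l.succ < π l.castSucc))).card := by
    refine Finset.card_equiv Fin.revPerm ?_
    intro l
    simp only [Finset.mem_filter, Finset.mem_univ, true_and, Equiv.Perm.mul_apply, Fin.revPerm_apply,
      Fin.rev_succ, Fin.rev_castSucc, not_lt]
    constructor
    · intro h; exact h.le
    · intro h
      refine lt_of_le_of_ne h ?_
      intro h2
      have h3 := π.injective h2
      have h4 := congrArg Fin.val h3
      simp at h4
  rw [h1, add_comm, Finset.card_filter_add_card_filter_not]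
  simp

theorem H_pal (k : ℕ) (s : ℤˣ) (y : ℝ) :
    (H k s).eval (1 - y) =
      (-1)^k * (H k (s * Equiv.Perm.sign (Fin.revPerm : Equiv.Perm (Fin (k+1))))).eval y := by
  unfold H
  rw [eval_finsetSum, eval_finsetSum, Finset.mul_sum]
  refine Finset.sum_equiv (Equiv.mulRight Fin.revPerm) ?_ ?_
  · intro π
    simp only [Finset.mem_filter, Finset.mem_univ, true_and, Equiv.coe_mulRight,
      Equiv.Perm.sign_mul, mul_left_inj]
  · intro π hπ
    have h1 := desc_rev π
    simp only [Equiv.coe_mulRight, eval_mul, eval_pow, eval_sub, eval_X, eval_one]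
    set d := desc π
    set d' := desc (π * Fin.revPerm)
    have e1 : k - d = d' := by omega
    have e2 : k - d' = d := by omega
    rw [e1, e2]
    have e3 : (-1:ℝ)^k = (-1)^d' * (-1)^d := by rw [← pow_add, h1]
    have e4 : (1 - y - 1) = (-1) * y := by ring
    have e5 : (1 - y) = (-1) * (y - 1) := by ring
    rw [e3, e4, e5, mul_pow, mul_pow]
    ring

theorem H_eval_one (k : ℕ) (s : ℤˣ) : 0 ≤ (H k s).eval 1 := by
  unfold H
  rw [eval_finsetSum]
  refine Finset.sum_nonneg fun π _ => ?_
  simp only [eval_mul, eval_pow, eval_sub, eval_X, eval_one, sub_self, one_pow, mul_one]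
  positivity

theorem exists_sign (k : ℕ) (hk : 1 ≤ k) (s : ℤˣ) :
    ∃ π : Equiv.Perm (Fin (k+1)), Equiv.Perm.sign π = s := by
  have : Nontrivial (Fin (k+1)) := Fin.nontrivial_iff_two_le.2 (by omega)
  exact Equiv.Perm.sign_surjective (Fin (k+1)) s

theorem H_ne_zero (k : ℕ) (hk : 1 ≤ k) (s : ℤˣ) : H k s ≠ 0 := by
  intro h
  have h1 : 0 < (H k s).eval 2 := by
    unfold H
    rw [eval_finsetSum]
    refine Finset.sum_pos (fun π _ => ?_) ?_
    · simp only [eval_mul, eval_pow, eval_sub, eval_X, eval_one]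
      norm_num
    · obtain ⟨π, hπ⟩ := exists_sign k hk s
      exact ⟨π, by simp [hπ]⟩
  rw [h] at h1
  simp at h1

theorem main_even (m : ℕ) (hm : 1 ≤ m) (y : ℕ → ℝ) (h1 : y 1 = 1)
    (hhalf : ∀ j, 1 ≤ j → j ≤ m → 1/2 < y j) (hanti : ∀ j, 1 ≤ j → j + 1 ≤ m → y (j+1) < y j)
    (hsgn : ∀ (s : ℤˣ) (j : ℕ), 2 ≤ j → j ≤ m → 0 < (-1 : ℝ)^(j+1) * (H (2*m-1) s).eval (y j))
    (s : ℤˣ) : (H (2*m-1) s).Splits := by
  set b : ℕ → ℝ := fun i => if i < m then 1 - y (i+1) else y (2*m - i) with hb
  have hsg1 : ∀ (s : ℤˣ) (j : ℕ), 1 ≤ j → j ≤ m →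
      0 ≤ (-1 : ℝ)^(j+1) * (H (2*m-1) s).eval (y j) := by
    intro s j hj hjm
    rcases Nat.lt_or_ge j 2 with h | h
    · have : j = 1 := by omega
      subst this
      rw [h1]
      have := H_eval_one (2*m-1) s
      norm_num
      exact this
    · exact (hsgn s j h hjm).le
  have hodd : (-1:ℝ)^(2*m-1) = -1 := by
    have : 2*m-1 = 2*(m-1)+1 := by omega
    rw [this, pow_succ, pow_mul]; norm_num
  -- sign at b i
  have hbs : ∀ i, i ≤ 2*m-1 → 0 ≤ (-1:ℝ)^(i+1) * (H (2*m-1) s).eval (b i) := by
    intro i hi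
    rw [hb]
    simp only
    split_ifs with h
    · rw [H_pal, hodd]
      have := hsg1 (s * Equiv.Perm.sign (Fin.revPerm : Equiv.Perm (Fin (2*m-1+1)))) (i+1) (by omega) (by omega)
      rw [pow_succ] at this
      linarith
    · have := hsg1 s (2*m-i) (by omega) (by omega)
      have e : (-1:ℝ)^(i+1) = (-1)^(2*m-i+1) := by
        have : (-1:ℝ)^(i+1) * (-1)^(2*m-i+1) = 1 := by
          rw [← pow_add]
          have : i+1 + (2*m-i+1) = 2*(m+1) := by omega
          rw [this, pow_mul]; norm_num
        have h2 : (-1:ℝ)^(2*m-i+1) * (-1)^(2*m-i+1) = 1 := by rw [← mul_pow]; norm_num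
        have h3 : (-1:ℝ)^(2*m-i+1) ≠ 0 := by
          apply pow_ne_zero; norm_num
        exact mul_right_cancel₀ h3 (this.trans h2.symm)
      rw [e]; exact this
  have hbs' : ∀ i, 0 < i → i < 2*m-1 → (H (2*m-1) s).eval (b i) ≠ 0 := by
    intro i hi0 hi
    rw [hb]
    simp only
    split_ifs with h
    · rw [H_pal, hodd]
      have := hsgn (s * Equiv.Perm.sign (Fin.revPerm : Equiv.Perm (Fin (2*m-1+1)))) (i+1) (by omega) (by omega)
      intro h0
      have h2 : eval (y (i + 1)) (H (2 * m - 1) (s * Equiv.Perm.sign (Fin.revPerm : Equiv.Perm (Fin (2*m-1+1))))) = 0 := by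
        linarith
      rw [h2] at this
      simp at this
    · have := hsgn s (2*m-i) (by omega) (by omega)
      intro h0
      rw [h0] at this
      simp at this
  refine splits_of_alternating _ (2*m-1) b (H_ne_zero _ (by omega) s) (H_natDegree _ s) ?_ ?_ hbs'
  · intro i hi
    rw [hb]
    simp only
    split_ifs with g1 g2 g2
    · have := hanti (i+1) (by omega) (by omega)
      linarith
    · have e : i + 1 = m := by omega
      have e2 : 2*m-(i+1) = m := by omega
      rw [e2, e]
      have := hhalf m hm le_rfl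
      linarith
    · omega
    · have := hanti (2*m-(i+1)) (by omega) (by omega)
      have e : 2*m-(i+1)+1 = 2*m-i := by omega
      rw [e] at this
      exact this
  · intro i hi
    have a1 := hbs i (by omega)
    have a2 := hbs (i+1) (by omega)
    have a3 := mul_nonneg a1 a2
    have e : (-1:ℝ)^(i+1) * (-1)^(i+1) = 1 := by rw [← mul_pow]; norm_num
    have e2 : (-1 : ℝ) ^ (i + 1) * eval (b i) (H (2 * m - 1) s) * ((-1) ^ (i + 1 + 1) * eval (b (i + 1)) (H (2 * m - 1) s))
       = - (eval (b i) (H (2 * m - 1) s) * eval (b (i + 1)) (H (2 * m - 1) s)) := by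
      rw [pow_succ (-1:ℝ) (i+1)]
      linear_combination (-(eval (b i) (H (2 * m - 1) s) * eval (b (i + 1)) (H (2 * m - 1) s))) * e
    rw [e2] at a3
    linarith

end Pool.Agent.H750R3
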