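import Pool.Agent.H750R3.Count2

set_option autoImplicit false

namespace Pool.Agent.H750R3

open Finset

/-- sign of a comparison -/
def sg {α : Type} [LinearOrder α] (a b : α) : ℤ := if a ≤ b then 1 else -1

/-- sign of a word -/
def eps {n : ℕ} {α : Type} [LinearOrder α] (w : Fin n → α) : ℤ :=
  ∏ i, ∏ j ∈ Finset.Ioi i, sg (w i) (w j)

theorem sign_sort {n : ℕ} {α : Type} [LinearOrder α] (w : Fin n → α) :
    ((Equiv.Perm.sign (Tuple.sort w) : ℤˣ) : ℤ) = eps w := by
  rw [← Equiv.Perm.sign_inv, Equiv.Perm.sign_eq_prod_prod_Ioi]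
  unfold eps sg
  push_cast
  refine Finset.prod_congr rfl fun a _ => Finset.prod_congr rfl fun b hb => ?_
  rw [Finset.mem_Ioi] at hb
  obtain ⟨h1, h2⟩ := (Tuple.eq_sort_iff (f := w) (σ := Tuple.sort w)).1 rfl
  set π := Tuple.sort w
  have key : π⁻¹ a < π⁻¹ b ↔ w a ≤ w b := by
    constructor
    · intro h
      have := h1 h.le
      simpa using this
    · intro h
      by_contra h3
      rw [not_lt] at h3
      rcases h3.lt_or_eq with h3 | h3
      · have h4 := h1 h3.le
        have h5 : w b ≤ w a := by simpa using h4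
        have h6 := h2 _ _ h3 (by simpa using le_antisymm h5 h)
        have h7 : b < a := by simpa using h6
        exact absurd h7 (not_lt.2 hb.le)
      · exact absurd ((π⁻¹).injective h3) hb.ne'
  by_cases h : w a ≤ w b
  · rw [if_pos (key.2 h), if_pos h]; simp
  · rw [if_neg (fun h' => h (key.1 h')), if_neg h]; simp

theorem eps_cons {n : ℕ} {α : Type} [LinearOrder α] (u : α) (w : Fin n → α) :
    eps (Fin.cons u w : Fin (n+1) → α) = (∏ j, sg u (w j)) * eps w := by
  unfold eps
  rw [Fin.prod_univ_succ]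
  congr 1
  · rw [Fin.Ioi_zero_eq_map, Finset.prod_map]
    simp
  · refine Finset.prod_congr rfl fun i _ => ?_
    rw [Fin.Ioi_succ, Finset.prod_map]
    simp

/-- signed number of words -/
def epsum (n : ℕ) (α : Type) [Fintype α] [LinearOrder α] : ℤ := ∑ w : Fin n → α, eps w

theorem epsum_succ_succ (n : ℕ) (α : Type) [Fintype α] [LinearOrder α] :
    epsum (n+2) α = Fintype.card α * epsum n α := by
  unfold epsum
  have h1 : ∀ (k : ℕ) (f : (Fin (k+1) → α) → ℤ), ∑ w : Fin (k+1) → α, f w =
      ∑ u : α, ∑ w : Fin k → α, f (Fin.cons u w) := by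
    intro k f
    rw [← (Fin.consEquiv (fun _ : Fin (k+1) => α)).sum_comp, Fintype.sum_prod_type]
    rfl
  rw [h1]
  have h2 : ∀ u : α, ∑ w : Fin (n+1) → α, eps (Fin.cons u w : Fin (n+2) → α) =
      ∑ v : α, ∑ w : Fin n → α, eps (Fin.cons u (Fin.cons v w) : Fin (n+2) → α) := by
    intro u
    rw [h1]
  simp only [h2]
  have h3 : ∀ (u v : α) (w : Fin n → α), eps (Fin.cons u (Fin.cons v w) : Fin (n+2) → α) =
      sg u v * ((∏ j, sg u (w j)) * (∏ j, sg v (w j)) * eps w) := by
    intro u v w
    rw [eps_cons, eps_cons, Fin.prod_univ_succ]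
    simp only [Fin.cons_zero, Fin.cons_succ]
    ring
  simp only [h3]
  set G : α → α → ℤ := fun u v => ∑ w : Fin n → α, ((∏ j, sg u (w j)) * (∏ j, sg v (w j)) * eps w)
    with hG
  have h4 : ∀ u v : α, ∑ w : Fin n → α, sg u v * ((∏ j, sg u (w j)) * (∏ j, sg v (w j)) * eps w)
      = sg u v * G u v := by
    intro u v
    rw [hG, Finset.mul_sum]
  simp only [h4]
  have hGs : ∀ u v, G u v = G v u := by
    intro u v
    simp only [hG]
    refine Finset.sum_congr rfl fun w _ => ?_
    ring
  have hGd : ∀ u, G u u = ∑ w : Fin n → α, eps w := by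
    intro u
    simp only [hG]
    refine Finset.sum_congr rfl fun w _ => ?_
    have : (∏ j, sg u (w j)) * (∏ j, sg u (w j)) = 1 := by
      rw [← Finset.prod_mul_distrib]
      apply Finset.prod_eq_one
      intro j _
      unfold sg
      split_ifs <;> norm_num
    rw [this, one_mul]
  have h5 : 2 * ∑ u : α, ∑ v : α, sg u v * G u v = 2 * (Fintype.card α * ∑ w : Fin n → α, eps w) := by
    have e1 : ∑ u : α, ∑ v : α, sg u v * G u v = ∑ u : α, ∑ v : α, sg v u * G u v := by
      rw [Finset.sum_comm]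
      refine Finset.sum_congr rfl fun u _ => Finset.sum_congr rfl fun v _ => ?_
      rw [hGs]
    have e2 : ∀ u v : α, sg u v + sg v u = if u = v then 2 else 0 := by
      intro u v
      unfold sg
      rcases lt_trichotomy u v with h | h | h
      · rw [if_pos h.le, if_neg (not_le.2 h), if_neg h.ne]; norm_num
      · subst h; simp
      · rw [if_neg (not_le.2 h), if_pos h.le, if_neg h.ne']; norm_num
    calc 2 * ∑ u : α, ∑ v : α, sg u v * G u v
        = ∑ u : α, ∑ v : α, sg u v * G u v + ∑ u : α, ∑ v : α, sg v u * G u v := by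
          rw [← e1]; ring
      _ = ∑ u : α, ∑ v : α, (sg u v + sg v u) * G u v := by
          rw [← Finset.sum_add_distrib]
          refine Finset.sum_congr rfl fun u _ => ?_
          rw [← Finset.sum_add_distrib]
          refine Finset.sum_congr rfl fun v _ => ?_
          ring
      _ = ∑ u : α, 2 * G u u := by
          refine Finset.sum_congr rfl fun u _ => ?_
          simp only [e2, ite_mul, zero_mul]
          rw [Finset.sum_ite_eq]
          simp
      _ = 2 * (Fintype.card α * ∑ w : Fin n → α, eps w) := by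
          simp only [hGd]
          rw [Finset.sum_const, Finset.card_univ, nsmul_eq_mul]
          ring
  linarith

theorem epsum_eq (n : ℕ) (x : ℕ) : epsum n (Fin x) = (x : ℤ) ^ ((n + 1) / 2) := by
  induction n using Nat.strong_induction_on with
  | _ n ih =>
    rcases n with _ | _ | n
    · simp [epsum, eps]
    · simp [epsum, eps]
    · rw [epsum_succ_succ, ih n (by omega), Fintype.card_fin]
      have : (n + 1 + 1 + 1) / 2 = (n + 1) / 2 + 1 := by omega
      rw [this, pow_succ]; ring

theorem sum_cnt {n : ℕ} (x : ℕ) : ∑ π : Equiv.Perm (Fin n), (cnt (Fin x) π : ℤ) = (x : ℤ) ^ n := by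
  unfold cnt
  have h := Finset.card_eq_sum_card_fiberwise (f := fun w : Fin n → Fin x => Tuple.sort w)
    (s := Finset.univ) (t := Finset.univ) (by simp)
  rw [Finset.card_univ, Fintype.card_fun, Fintype.card_fin, Fintype.card_fin] at h
  have h2 : ((x ^ n : ℕ) : ℤ) = (x : ℤ) ^ n := by push_cast; rfl
  rw [← h2, h]
  push_cast
  rfl

theorem sum_sign_cnt {n : ℕ} (x : ℕ) :
    ∑ π : Equiv.Perm (Fin n), ((Equiv.Perm.sign π : ℤˣ) : ℤ) * (cnt (Fin x) π : ℤ)
      = (x : ℤ) ^ ((n + 1) / 2) := by
  rw [← epsum_eq]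
  unfold epsum
  have h1 : ∑ w : Fin n → Fin x, eps w = ∑ w : Fin n → Fin x, ((Equiv.Perm.sign (Tuple.sort w) : ℤˣ) : ℤ) :=
    Finset.sum_congr rfl fun w _ => (sign_sort w).symm
  rw [h1, ← Finset.sum_fiberwise (s := (Finset.univ : Finset (Fin n → Fin x)))
    (g := fun w : Fin n → Fin x => Tuple.sort w)]
  refine Finset.sum_congr rfl fun π _ => ?_
  unfold cnt
  rw [Finset.sum_congr rfl (g := fun _ => ((Equiv.Perm.sign π : ℤˣ) : ℤ))]
  · rw [Finset.sum_const, nsmul_eq_mul]; ring
  · intro w hw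
    rw [Finset.mem_filter] at hw
    rw [hw.2]

/-- Worpitzky identity for permutations of given sign. -/
theorem worp {m : ℕ} (s : ℤˣ) (x : ℕ) :
    2 * ∑ π ∈ (Finset.univ : Finset (Equiv.Perm (Fin (m+1)))).filter (fun π => Equiv.Perm.sign π = s),
      (((x + (m - desc π)).choose (m+1) : ℕ) : ℤ) = (x : ℤ) ^ (m+1) + (s : ℤ) * (x : ℤ) ^ ((m + 2) / 2) := by
  have h0 : ∀ π : Equiv.Perm (Fin (m+1)), (x + (m - desc π)).choose (m+1) = cnt (Fin x) π := by
    intro π
    have := desc_add_asb π
    rw [cnt_fin]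
    congr 2
    omega
  simp only [h0]
  rw [← sum_cnt (n := m+1) x]
  have h1 := sum_sign_cnt (n := m+1) x
  have h2 : (m + 1 + 1) / 2 = (m + 2) / 2 := rfl
  rw [h2] at h1
  rw [← h1, Finset.mul_sum (a := ((s : ℤˣ) : ℤ)), ← Finset.sum_add_distrib, Finset.mul_sum,
    Finset.sum_filter]
  refine Finset.sum_congr rfl fun π _ => ?_
  rcases Int.units_eq_one_or (Equiv.Perm.sign π) with h | h <;>
    rcases Int.units_eq_one_or s with h' | h' <;> simp [h, h'] <;> ring

end Pool.Agent.H750R3
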