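import Pool.Agent.H750R3.Roots

set_option autoImplicit false

namespace Pool.Agent.H750R3

open Polynomial

/-- number of permutations with sign `s` and `d` descents -/
def NN (k : ℕ) (s : ℤˣ) (d : ℕ) : ℕ :=
  ((Finset.univ : Finset (Equiv.Perm (Fin (k+1)))).filter
    (fun π => Equiv.Perm.sign π = s ∧ desc π = d)).card

theorem sum_desc {R : Type} [CommRing R] (k : ℕ) (s : ℤˣ) (f : ℕ → R) :
    ∑ π ∈ (Finset.univ : Finset (Equiv.Perm (Fin (k+1)))).filter (fun π => Equiv.Perm.sign π = s),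
      f (desc π) = ∑ d ∈ Finset.range (k+1), (NN k s d : R) * f d := by
  rw [← Finset.sum_fiberwise_of_maps_to (g := fun π => desc π) (t := Finset.range (k+1))]
  · refine Finset.sum_congr rfl fun d _ => ?_
    rw [Finset.filter_filter]
    unfold NN
    rw [← nsmul_eq_mul, ← Finset.sum_const]
    refine Finset.sum_congr rfl fun π hπ => ?_
    rw [(Finset.mem_filter.1 hπ).2.2]
  · intro π _
    rw [Finset.mem_range]
    have := desc_le' π
    omega

theorem worp_NN (k : ℕ) (s : ℤˣ) (x : ℕ) :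
    2 * ∑ d ∈ Finset.range (k+1), (NN k s d : ℤ) * (((x + (k - d)).choose (k+1) : ℕ) : ℤ) =
      (x:ℤ)^(k+1) + (s:ℤ) * (x:ℤ)^((k+2)/2) := by
  rw [← worp (m := k) s x, ← sum_desc k s (fun d => (((x + (k - d)).choose (k+1) : ℕ) : ℤ))]

theorem H_NN (k : ℕ) (s : ℤˣ) (y : ℝ) :
    (H k s).eval y = ∑ d ∈ Finset.range (k+1), (NN k s d : ℝ) * ((y-1)^d * y^(k-d)) := by
  rw [← sum_desc k s (fun d => ((y-1)^d * y^(k-d) : ℝ))]
  unfold H
  rw [eval_finsetSum]
  simp

theorem NN3 (s : ℤˣ) : 8 * (NN 3 s 0 : ℤ) - 4 * NN 3 s 1 + 2 * NN 3 s 2 - NN 3 s 3 < 0 := by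
  have h1 := worp_NN 3 s 1
  have h2 := worp_NN 3 s 2
  have h3 := worp_NN 3 s 3
  have h4 := worp_NN 3 s 4
  simp only [Finset.sum_range_succ, Finset.sum_range_zero] at h1 h2 h3 h4
  norm_num [Nat.choose] at h1 h2 h3 h4
  rcases Int.units_eq_one_or s with h | h <;> subst h <;> norm_num at h1 h2 h3 h4 ⊢ <;> omega

theorem NN5 (s : ℤˣ) :
    100000 * (NN 5 s 0 : ℤ) - 10000 * NN 5 s 1 + 1000 * NN 5 s 2 - 100 * NN 5 s 3 + 10 * NN 5 s 4
      - NN 5 s 5 < 0 ∧
    0 < 32 * (NN 5 s 0 : ℤ) - 16 * NN 5 s 1 + 8 * NN 5 s 2 - 4 * NN 5 s 3 + 2 * NN 5 s 4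
      - NN 5 s 5 := by
  have h1 := worp_NN 5 s 1
  have h2 := worp_NN 5 s 2
  have h3 := worp_NN 5 s 3
  have h4 := worp_NN 5 s 4
  have h5 := worp_NN 5 s 5
  have h6 := worp_NN 5 s 6
  have c1 : Nat.choose 1 6 = 0 := by decide
  have c2 : Nat.choose 2 6 = 0 := by decide
  have c3 : Nat.choose 3 6 = 0 := by decide
  have c4 : Nat.choose 4 6 = 0 := by decide
  have c5 : Nat.choose 5 6 = 0 := by decide
  simp only [Finset.sum_range_succ, Finset.sum_range_zero] at h1 h2 h3 h4 h5 h6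
  have c8 : Nat.choose 8 6 = 28 := by decide
  have c9 : Nat.choose 9 6 = 84 := by decide
  have c10 : Nat.choose 10 6 = 210 := by decide
  have c11 : Nat.choose 11 6 = 462 := by decide
  norm_num [c1, c2, c3, c4, c5] at h1 h2 h3 h4 h5 h6
  simp only [c8, c9, c10, c11] at h3 h4 h5 h6
  rcases Int.units_eq_one_or s with h | h
  · subst h
    simp only [Units.val_one, one_mul] at h1 h2 h3 h4 h5 h6
    constructor <;> omega
  · subst h
    simp only [Units.val_neg, Units.val_one, neg_mul, one_mul] at h1 h2 h3 h4 h5 h6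
    constructor <;> omega

theorem H3_sign (s : ℤˣ) : (H 3 s).eval (2/3) < 0 := by
  rw [H_NN]
  have h := NN3 s
  have h' : 8 * (NN 3 s 0 : ℝ) - 4 * NN 3 s 1 + 2 * NN 3 s 2 - NN 3 s 3 < 0 := by exact_mod_cast h
  simp only [Finset.sum_range_succ, Finset.sum_range_zero]
  norm_num
  linarith

theorem H5_sign1 (s : ℤˣ) : (H 5 s).eval (10/11) < 0 := by
  rw [H_NN]
  have h := (NN5 s).1
  have h' : 100000 * (NN 5 s 0 : ℝ) - 10000 * NN 5 s 1 + 1000 * NN 5 s 2 - 100 * NN 5 s 3 +
    10 * NN 5 s 4 - NN 5 s 5 < 0 := by exact_mod_cast h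
  simp only [Finset.sum_range_succ, Finset.sum_range_zero]
  norm_num
  linarith

theorem H5_sign2 (s : ℤˣ) : 0 < (H 5 s).eval (2/3) := by
  rw [H_NN]
  have h := (NN5 s).2
  have h' : 0 < 32 * (NN 5 s 0 : ℝ) - 16 * NN 5 s 1 + 8 * NN 5 s 2 - 4 * NN 5 s 3 + 2 * NN 5 s 4
      - NN 5 s 5 := by exact_mod_cast h
  simp only [Finset.sum_range_succ, Finset.sum_range_zero]
  norm_num
  linarith

theorem even_small (m : ℕ) (hm : 1 ≤ m) (hm3 : m ≤ 3) (s : ℤˣ) : (H (2*m-1) s).Splits := by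
  have : m = 1 ∨ m = 2 ∨ m = 3 := by omega
  rcases this with rfl | rfl | rfl
  · refine main_even 1 le_rfl (fun _ => 1) rfl ?_ ?_ ?_ s
    · intro j _ _; norm_num
    · intro j h1 h2; omega
    · intro s j h1 h2; omega
  · refine main_even 2 (by norm_num) (fun j => if j = 1 then 1 else 2/3) (by simp) ?_ ?_ ?_ s
    · intro j _ _; split_ifs <;> norm_num
    · intro j h1 h2
      have : j = 1 := by omega
      subst this; norm_num
    · intro s j h1 h2
      have : j = 2 := by omega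
      subst this
      have h := H3_sign s
      norm_num
      exact h
  · refine main_even 3 (by norm_num) (fun j => if j = 1 then 1 else if j = 2 then 10/11 else 2/3)
      (by simp) ?_ ?_ ?_ s
    · intro j _ _; split_ifs <;> norm_num
    · intro j h1 h2
      have : j = 1 ∨ j = 2 := by omega
      rcases this with rfl | rfl <;> norm_num
    · intro s j h1 h2
      have : j = 2 ∨ j = 3 := by omega
      rcases this with rfl | rfl
      · have h := H5_sign1 s
        norm_num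
        exact h
      · have h := H5_sign2 s
        norm_num
        exact h

end Pool.Agent.H750R3
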